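import Pool.Graph.R_seed8.H679R3.OR.Root

set_option autoImplicit false

/-!
# Free group actions: edges, paths and holonomy

`F = FreeGroup X` acts on a type `Ω`.  Reading the letter `a` from `u : Ω` leads to
`st u a = (lt a)⁻¹ • u`; the edge traversed is `edge u a : Ω × X` (its source is the end from which
the positive letter is read).
-/

namespace Pool.Agent.H355.Units

open Pool.H679R3.OR

variable {X : Type} {Ω : Type*} [MulAction (FreeGroup X) Ω]

/-- value of a letter -/
def lt (a : X × Bool) : FreeGroup X := sg FreeGroup.of a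

theorem lt_inv (a : X × Bool) : lt (inv a) = (lt a)⁻¹ := sg_inv _ _

theorem mk_nil : FreeGroup.mk ([] : List (X × Bool)) = 1 := rfl

theorem mk_singleton (a : X × Bool) : FreeGroup.mk [a] = lt a := by
  obtain ⟨x, b⟩ := a
  cases b
  · show _ = (FreeGroup.mk [(x, true)])⁻¹
    rw [FreeGroup.inv_mk]; rfl
  · rfl

theorem mk_cons (a : X × Bool) (l : List (X × Bool)) :
    FreeGroup.mk (a :: l) = lt a * FreeGroup.mk l := by
  rw [← mk_singleton, FreeGroup.mul_mk]; rfl

theorem mk_append (l l' : List (X × Bool)) :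
    FreeGroup.mk (l ++ l') = FreeGroup.mk l * FreeGroup.mk l' := by
  rw [FreeGroup.mul_mk]

/-- moving along a letter -/
def st (u : Ω) (a : X × Bool) : Ω := (lt a)⁻¹ • u

theorem st_st_inv (u : Ω) (a : X × Bool) : st (st u a) (inv a) = u := by
  unfold st; rw [lt_inv, _root_.inv_inv, smul_inv_smul]

theorem st_inj {u v : Ω} {a : X × Bool} (h : st u a = st v a) : u = v := by
  have := congrArg (fun x => st x (inv a)) h
  simpa [st_st_inv] using this

/-- the undirected edge traversed when reading `a` from `u` -/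
def edge (u : Ω) (a : X × Bool) : Ω × X := if a.2 then (u, a.1) else (st u a, a.1)

theorem edge_true (u : Ω) (x : X) : edge u (x, true) = (u, x) := rfl
theorem edge_false (u : Ω) (x : X) : edge u (x, false) = (st u (x, false), x) := rfl

theorem edge_inv (u : Ω) (a : X × Bool) : edge (st u a) (inv a) = edge u a := by
  obtain ⟨x, b⟩ := a
  cases b
  · rfl
  · show (st (st u (x, true)) (inv (x, true)), x) = (u, x)
    rw [st_st_inv]

theorem edge_eq {u u' : Ω} {a a' : X × Bool} (h : edge u a = edge u' a') :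
    (u = u' ∧ a = a') ∨ (u' = st u a ∧ a' = inv a) := by
  obtain ⟨x, b⟩ := a
  obtain ⟨x', b'⟩ := a'
  have h2 : x = x' := by
    have := congrArg Prod.snd h
    cases b <;> cases b' <;> simpa [edge] using this
  subst h2
  have h1 := congrArg Prod.fst h
  cases b <;> cases b'
  · left
    exact ⟨st_inj (a := (x, false)) h1, rfl⟩
  · right
    exact ⟨h1.symm, rfl⟩
  · right
    refine ⟨?_, rfl⟩
    have h3 : u = st u' (x, false) := h1
    rw [h3]
    exact (st_st_inv u' (x, false)).symm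
  · left
    exact ⟨h1, rfl⟩

/-! ### paths -/

/-- all edges of the path with label `l` starting at `u` lie in `D` -/
def Pth (D : Set (Ω × X)) : Ω → List (X × Bool) → Prop
  | _, [] => True
  | u, a :: l => edge u a ∈ D ∧ Pth D (st u a) l

theorem Pth_nil (D : Set (Ω × X)) (u : Ω) : Pth D u [] := trivial

theorem Pth_cons {D : Set (Ω × X)} {u : Ω} {a : X × Bool} {l : List (X × Bool)} :
    Pth D u (a :: l) ↔ edge u a ∈ D ∧ Pth D (st u a) l := Iff.rfl

theorem Pth_append {D : Set (Ω × X)} {u : Ω} {l l' : List (X × Bool)} :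
    Pth D u (l ++ l') ↔ Pth D u l ∧ Pth D ((FreeGroup.mk l)⁻¹ • u) l' := by
  induction l generalizing u with
  | nil => simp [Pth_nil, mk_nil]
  | cons a l ih =>
    rw [List.cons_append, Pth_cons, Pth_cons, ih, mk_cons, mul_inv_rev, mul_smul, and_assoc]
    rfl

theorem Pth_mono {D D' : Set (Ω × X)} (h : D ⊆ D') {u : Ω} {l : List (X × Bool)}
    (hl : Pth D u l) : Pth D' u l := by
  induction l generalizing u with
  | nil => trivial
  | cons a l ih => exact ⟨h hl.1, ih hl.2⟩

/-- the inverse word -/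
def linv (l : List (X × Bool)) : List (X × Bool) := (l.map inv).reverse

theorem linv_nil : linv ([] : List (X × Bool)) = [] := rfl

theorem linv_cons (a : X × Bool) (l : List (X × Bool)) : linv (a :: l) = linv l ++ [inv a] := by
  simp [linv]

theorem linv_append (l l' : List (X × Bool)) : linv (l ++ l') = linv l' ++ linv l := by
  simp [linv]

theorem linv_linv (l : List (X × Bool)) : linv (linv l) = l := by
  induction l with
  | nil => rfl
  | cons a l ih => rw [linv_cons, linv_append, ih]; simp [linv, inv_inv]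

theorem mk_linv (l : List (X × Bool)) : FreeGroup.mk (linv l) = (FreeGroup.mk l)⁻¹ := by
  induction l with
  | nil => simp [linv_nil, mk_nil]
  | cons a l ih => rw [linv_cons, mk_append, ih, mk_singleton, lt_inv, mk_cons, mul_inv_rev]

theorem Pth_linv {D : Set (Ω × X)} {u : Ω} {l : List (X × Bool)} (h : Pth D u l) :
    Pth D ((FreeGroup.mk l)⁻¹ • u) (linv l) := by
  induction l generalizing u with
  | nil => trivial
  | cons a l ih =>
    rw [linv_cons, Pth_append]
    have e : (FreeGroup.mk (a :: l))⁻¹ • u = (FreeGroup.mk l)⁻¹ • st u a := by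
      rw [mk_cons, mul_inv_rev, mul_smul]; rfl
    rw [e]
    refine ⟨ih h.2, ?_, trivial⟩
    rw [mk_linv, _root_.inv_inv, smul_inv_smul, edge_inv]
    exact h.1

/-- there is a path in `D` from `u` whose label represents `g` -/
def PG (D : Set (Ω × X)) (u : Ω) (g : FreeGroup X) : Prop :=
  ∃ l, FreeGroup.mk l = g ∧ Pth D u l

theorem PG_one (D : Set (Ω × X)) (u : Ω) : PG D u 1 := ⟨[], rfl, trivial⟩

theorem PG_mul {D : Set (Ω × X)} {u : Ω} {g h : FreeGroup X} (hg : PG D u g)
    (hh : PG D (g⁻¹ • u) h) : PG D u (g * h) := by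
  obtain ⟨l, rfl, hl⟩ := hg
  obtain ⟨l', rfl, hl'⟩ := hh
  exact ⟨l ++ l', mk_append _ _, Pth_append.2 ⟨hl, hl'⟩⟩

theorem PG_inv {D : Set (Ω × X)} {u : Ω} {g : FreeGroup X} (hg : PG D u g) :
    PG D (g⁻¹ • u) g⁻¹ := by
  obtain ⟨l, rfl, hl⟩ := hg
  exact ⟨linv l, mk_linv l, Pth_linv hl⟩

theorem PG_mono {D D' : Set (Ω × X)} (h : D ⊆ D') {u : Ω} {g : FreeGroup X} (hg : PG D u g) :
    PG D' u g := by
  obtain ⟨l, rfl, hl⟩ := hg
  exact ⟨l, rfl, Pth_mono h hl⟩

theorem PG_lt {D : Set (Ω × X)} {u : Ω} {a : X × Bool} (h : edge u a ∈ D) : PG D u (lt a) :=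
  ⟨[a], mk_singleton a, h, trivial⟩

/-- loops in `D` based at `v` -/
def Lp (D : Set (Ω × X)) (v : Ω) : Subgroup (FreeGroup X) where
  carrier := {g | PG D v g ∧ g • v = v}
  one_mem' := ⟨PG_one _ _, one_smul _ _⟩
  mul_mem' := by
    rintro g h ⟨hg, hg'⟩ ⟨hh, hh'⟩
    refine ⟨PG_mul hg ?_, by rw [mul_smul, hh', hg']⟩
    rw [inv_smul_eq_iff.2 hg'.symm]
    exact hh
  inv_mem' := by
    rintro g ⟨hg, hg'⟩
    have h1 : g⁻¹ • v = v := inv_smul_eq_iff.2 hg'.symm
    refine ⟨?_, h1⟩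
    have := PG_inv hg
    rwa [h1] at this

theorem mem_Lp {D : Set (Ω × X)} {v : Ω} {g : FreeGroup X} :
    g ∈ Lp D v ↔ PG D v g ∧ g • v = v := Iff.rfl

theorem Lp_le_stab (D : Set (Ω × X)) (v : Ω) : Lp D v ≤ MulAction.stabilizer (FreeGroup X) v :=
  fun _ h => h.2

theorem Lp_mono {D D' : Set (Ω × X)} (h : D ⊆ D') (v : Ω) : Lp D v ≤ Lp D' v :=
  fun _ hg => ⟨PG_mono h hg.1, hg.2⟩

/-! ### holonomy -/

section hol
variable {G : Type*} [Group G]

/-- holonomy of a letter -/
def hl (φ : Ω × X → G) (u : Ω) (a : X × Bool) : G :=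
  if a.2 then φ (edge u a) else (φ (edge u a))⁻¹

theorem hl_inv (φ : Ω × X → G) (u : Ω) (a : X × Bool) :
    hl φ (st u a) (inv a) = (hl φ u a)⁻¹ := by
  obtain ⟨x, b⟩ := a
  unfold hl
  rw [edge_inv]
  cases b <;> simp [inv]

theorem hl_congr {φ φ' : Ω × X → G} {u : Ω} {a : X × Bool} (h : φ (edge u a) = φ' (edge u a)) :
    hl φ u a = hl φ' u a := by
  unfold hl; rw [h]

/-- holonomy of a word -/
def hll (φ : Ω × X → G) : Ω → List (X × Bool) → G
  | _, [] => 1
  | u, a :: l => hl φ u a * hll φ (st u a) l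

theorem hll_append (φ : Ω × X → G) (u : Ω) (l l' : List (X × Bool)) :
    hll φ u (l ++ l') = hll φ u l * hll φ ((FreeGroup.mk l)⁻¹ • u) l' := by
  induction l generalizing u with
  | nil => simp [hll, mk_nil]
  | cons a l ih =>
    rw [List.cons_append]
    show hl φ u a * hll φ (st u a) (l ++ l') = hl φ u a * hll φ (st u a) l * _
    rw [ih, mk_cons, mul_inv_rev, mul_smul, mul_assoc]
    rfl

theorem hll_step (φ : Ω × X → G) (u : Ω) {l l' : List (X × Bool)} (h : FreeGroup.Red.Step l l') :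
    hll φ u l = hll φ u l' := by
  cases h with
  | @not L1 L2 x b =>
    rw [hll_append, hll_append]
    congr 1
    show hl φ _ (x, b) * (hl φ (st _ (x, b)) (inv (x, b)) * hll φ (st (st _ (x, b)) (inv (x, b))) L2)
      = _
    rw [hl_inv, mul_inv_cancel_left, st_st_inv]

/-- holonomy of a group element -/
def hol (φ : Ω × X → G) (u : Ω) : FreeGroup X → G :=
  Quot.lift (hll φ u) (fun _ _ h => hll_step φ u h)

theorem hol_mk (φ : Ω × X → G) (u : Ω) (l : List (X × Bool)) :
    hol φ u (FreeGroup.mk l) = hll φ u l := rfl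

theorem hol_one (φ : Ω × X → G) (u : Ω) : hol φ u 1 = 1 := rfl

theorem hol_lt (φ : Ω × X → G) (u : Ω) (a : X × Bool) : hol φ u (lt a) = hl φ u a := by
  rw [← mk_singleton, hol_mk]
  show hl φ u a * 1 = _
  rw [mul_one]

theorem hol_mul (φ : Ω × X → G) (u : Ω) (g h : FreeGroup X) :
    hol φ u (g * h) = hol φ u g * hol φ (g⁻¹ • u) h := by
  obtain ⟨l, rfl⟩ := Quot.exists_rep g
  obtain ⟨l', rfl⟩ := Quot.exists_rep h
  show hol φ u (FreeGroup.mk l * FreeGroup.mk l') = hll φ u l * hll φ _ l'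
  rw [← mk_append, hol_mk, hll_append]
  rfl

theorem hol_inv (φ : Ω × X → G) (u : Ω) (g : FreeGroup X) :
    hol φ (g⁻¹ • u) g⁻¹ = (hol φ u g)⁻¹ := by
  have h := hol_mul φ u g g⁻¹
  rw [mul_inv_cancel, hol_one] at h
  exact (inv_eq_of_mul_eq_one_right h.symm).symm

theorem hol_conj (φ : Ω × X → G) (u : Ω) (p g : FreeGroup X) (h : g • (p⁻¹ • u) = p⁻¹ • u) :
    hol φ u (p * g * p⁻¹) = hol φ u p * hol φ (p⁻¹ • u) g * (hol φ u p)⁻¹ := by
  have h1 : (p * g)⁻¹ • u = p⁻¹ • u := by
    rw [mul_inv_rev, mul_smul, inv_smul_eq_iff, h]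
  rw [hol_mul, hol_mul, h1, hol_inv]

/-- elements of the stabilizer with trivial holonomy form a subgroup -/
def hker (φ : Ω × X → G) (v : Ω) : Subgroup (FreeGroup X) where
  carrier := {g | g • v = v ∧ hol φ v g = 1}
  one_mem' := ⟨one_smul _ _, rfl⟩
  mul_mem' := by
    rintro g h ⟨hg, hg'⟩ ⟨hh, hh'⟩
    refine ⟨by rw [mul_smul, hh, hg], ?_⟩
    rw [hol_mul, inv_smul_eq_iff.2 hg.symm, hg', hh', one_mul]
  inv_mem' := by
    rintro g ⟨hg, hg'⟩
    have h1 : g⁻¹ • v = v := inv_smul_eq_iff.2 hg.symm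
    refine ⟨h1, ?_⟩
    have := hol_inv φ v g
    rw [h1] at this
    rw [this, hg', inv_one]

theorem mem_hker {φ : Ω × X → G} {v : Ω} {g : FreeGroup X} :
    g ∈ hker φ v ↔ g • v = v ∧ hol φ v g = 1 := Iff.rfl

theorem hll_congr {φ φ' : Ω × X → G} {D : Set (Ω × X)} (h : ∀ e ∈ D, φ e = φ' e) {u : Ω}
    {l : List (X × Bool)} (hl' : Pth D u l) : hll φ u l = hll φ' u l := by
  induction l generalizing u with
  | nil => rfl
  | cons a l ih =>
    show hl φ u a * hll φ (st u a) l = hl φ' u a * hll φ' (st u a) l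
    rw [ih hl'.2, hl_congr (h _ hl'.1)]

theorem hol_congr {φ φ' : Ω × X → G} {D : Set (Ω × X)} (h : ∀ e ∈ D, φ e = φ' e) {u : Ω}
    {g : FreeGroup X} (hg : PG D u g) : hol φ u g = hol φ' u g := by
  obtain ⟨l, rfl, hl'⟩ := hg
  rw [hol_mk, hol_mk]
  exact hll_congr h hl'

end hol

end Pool.Agent.H355.Units
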