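import Pool.Agent.H355.Units.Dim

set_option autoImplicit false

/-!
# The bound for irreducible sets of relator loops
-/

namespace Pool.Agent.H355.Units

open Pool.H679R3.OR

section core
variable {X : Type} {Ω : Type*} [MulAction (FreeGroup X) Ω] {w : Wd X}
variable [DecidableEq Ω] [DecidableEq X]

/-- every edge outside `E0` covered by `A` is covered at least twice -/
def Irr (w : Wd X) (A : Finset Ω) (E0 : Finset (Ω × X)) : Prop :=
  ∀ f ∈ fl w A, ed w f ∉ E0 → ∃ g ∈ fl w A, g ≠ f ∧ ed w g = ed w f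

omit [DecidableEq X] in
theorem fl_mono {A B : Finset Ω} (h : A ⊆ B) : fl w A ⊆ fl w B := by
  intro f hf
  obtain ⟨v, hv, i, hi, rfl⟩ := mem_fl.1 hf
  exact mem_fl.2 ⟨v, h hv, i, hi, rfl⟩

/-- removing the orbit carrying a free edge -/
theorem remove_edge {n : ℕ} (hn : 0 < n) {A : Finset Ω} (hA : Cl w n A)
    {f : Ω × ZMod w.L} (hf : f ∈ fl w A) (hu : ∀ g ∈ fl w A, ed w g = ed w f → g = f) :
    ∃ B ⊆ A, B ≠ A ∧ Cl w n B ∧ ed w f ∉ cov w B ∧
      (∀ F' ⊆ A, Cl w n F' → f ∉ fl w F' → F' ⊆ B) ∧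
      ∀ (G : Type) [Group G] (φ : Ω × X → G), ∃ c : G, ∀ u ∈ A, u ∉ B →
        hol (Function.update φ (ed w f) c) u (wv w (w.L * n)) = 1 := by
  classical
  obtain ⟨v, hv, i, hi, rfl⟩ := mem_fl.1 hf
  refine ⟨A.filter (fun u => ∀ s : ℕ, u ≠ (sig w)^[s] v), Finset.filter_subset _ _, ?_,
    Cl_remove hn hA hv, ?_, ?_, ?_⟩
  · intro h
    rw [← h] at hv
    exact (Finset.mem_filter.1 hv).2 0 rfl
  · intro h
    obtain ⟨g, hg, hg'⟩ := Finset.mem_image.1 h
    have h1 := hu g (fl_mono (Finset.filter_subset _ _) hg) hg'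
    obtain ⟨v', hv', i', hi', rfl⟩ := mem_fl.1 hg
    have h2 : ((i' : ℕ) : ZMod w.L) = (i : ZMod w.L) := congrArg Prod.snd h1
    have h3 : i' = i := by
      have := congrArg ZMod.val h2
      rwa [ZMod.val_natCast, ZMod.val_natCast, Nat.mod_eq_of_lt hi, Nat.mod_eq_of_lt hi'] at this
    subst h3
    have h4 : v' = v := vt_inj w (congrArg Prod.fst h1)
    subst h4
    exact (Finset.mem_filter.1 hv').2 0 rfl
  · intro F' hF' hF'c hfn u hu'
    refine Finset.mem_filter.2 ⟨hF' hu', ?_⟩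
    rintro s rfl
    apply hfn
    rw [mem_fl]
    refine ⟨v, ?_, i, hi, rfl⟩
    -- `v` is a translate of `sig^s v`
    have h1 : (sig w)^[n * s - s + s] v = v := by
      have : n * s - s + s = n * s := by
        have := Nat.le_mul_of_pos_left s hn
        omega
      rw [this]
      exact Function.IsPeriodicPt.mul_const (hA.2 v hv) s
    rw [Function.iterate_add_apply] at h1
    rw [← h1]
    exact iter_mem hF'c hu' _
  · intro G _ φ
    have hu' : ∀ g ∈ fl w A, ed w g = edge (vt w v i) (w.ℓ i) → g = (vt w v i, (i : ZMod w.L)) := by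
      intro g hg hg'
      exact hu g hg (by rw [hg', ed_vt])
    obtain ⟨c, hc⟩ := fee hn hA hv hi hu' φ
    refine ⟨c, ?_⟩
    intro u hu1 hu2
    rw [ed_vt]
    have : ∃ s : ℕ, u = (sig w)^[s] v := by
      by_contra hcon
      push Not at hcon
      exact hu2 (Finset.mem_filter.2 ⟨hu1, hcon⟩)
    obtain ⟨s, rfl⟩ := this
    exact hc s

/-- holonomy around a loop of `B` does not see edges not covered by `B` -/
theorem hol_update {n : ℕ} {B : Finset Ω} (hB : Cl w n B) {e : Ω × X} (he : e ∉ cov w B)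
    {G : Type*} [Group G] (φ : Ω × X → G) (c : G) {u : Ω} (hu : u ∈ B) (m : ℕ) :
    hol (Function.update φ e c) u (wv w m) = hol φ u (wv w m) := by
  apply hol_congr (D := (cov w B : Set (Ω × X)))
  · intro e' he'
    apply Function.update_of_ne
    rintro rfl
    exact he he'
  · exact PG_wv u m (fun t _ => cov_all hB hu t)

theorem bound_core {k : Type} [Field k] {n : ℕ} (hn : 0 < n) (hnk : (n : k) = 0) (s : Stk w)
    (hmax : ∀ i, s.r i ≤ s.r 0) {F' A0 : Finset Ω} {E0 : Finset (Ω × X)} (hFA : F' ⊆ A0)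
    (hF : Cl w n F') (hA0 : Cl w n A0) (hP : PP w n k A0 E0) (hirr : Irr w F' E0) :
    F'.card ≤ n * (2 * E0.card) := by
  classical
  let 𝒞 := A0.powerset.filter (fun A => F' ⊆ A ∧ Cl w n A ∧ PP w n k A E0)
  obtain ⟨A, hA, hmin⟩ := Finset.exists_min_image 𝒞 Finset.card
    ⟨A0, Finset.mem_filter.2 ⟨Finset.mem_powerset_self _, hFA, hA0, hP⟩⟩
  obtain ⟨hAA0, hFA', hAcl, hAP⟩ := Finset.mem_filter.1 hA
  have hcov : Irr w A E0 := by
    intro f hf hfE
    by_contra hcon
    push Not at hcon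
    have hu : ∀ g ∈ fl w A, ed w g = ed w f → g = f := by
      intro g hg hg'
      by_contra hne
      exact hcon g hg hne hg'
    obtain ⟨B, hBA, hBne, hB, hfB, hB', hc⟩ := remove_edge hn hAcl hf hu
    have hfF : f ∉ fl w F' := by
      intro hfF
      obtain ⟨g, hg, hg1, hg2⟩ := hirr f hfF hfE
      exact hcon g (fl_mono hFA' hg) hg1 hg2
    have hBP : PP w n k B E0 := by
      intro φ hφ hφ0
      obtain ⟨c, hc⟩ := hc (Multiplicative k) φ
      obtain ⟨g, hg⟩ := hAP (Function.update φ (ed w f) c) (by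
        intro u hu'
        by_cases huB : u ∈ B
        · rw [hol_update hB hfB φ c huB]
          exact hφ u huB
        · exact hc u hu' huB) (by
        intro e he
        rw [Function.update_of_ne]
        · exact hφ0 e he
        · rintro rfl
          exact hfE he)
      refine ⟨g, ?_⟩
      intro e he
      have h1 : e ∈ cov w A := Finset.image_subset_image (fl_mono hBA) he
      rw [← hg e h1, Function.update_of_ne]
      rintro rfl
      exact hfB he
    have h1 : B ∈ 𝒞 := Finset.mem_filter.2 ⟨Finset.mem_powerset.2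
      (hBA.trans (Finset.mem_powerset.1 hAA0)), hB' F' hFA' hF hfF, hB, hBP⟩
    have h2 := hmin B h1
    exact hBne (Finset.eq_of_subset_of_card_le hBA h2)
  have h1 := stack_ineq (fl w A) s hmax (nx_mem hAcl) E0 hcov
  rw [card_base] at h1
  obtain ⟨q, hq1, hq2⟩ := dim_ineq hn hnk hAcl E0 hAP
  have h3 : (cov w A).card = ((fl w A).image (ed w)).card := rfl
  have hq3 : q ≤ 2 * E0.card := by omega
  calc F'.card ≤ A.card := Finset.card_le_card hFA'
    _ ≤ n * q := hq1
    _ ≤ n * (2 * E0.card) := Nat.mul_le_mul_left _ hq3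

end core

/-! ### connected finite graphs -/

section conn
variable {X : Type} {Ω : Type*} [MulAction (FreeGroup X) Ω]

/-- connectedness to the base point -/
def Conn (D : Set (Ω × X)) (v0 : Ω) : Prop := ∀ e ∈ D, ∃ g, PG D v0 g ∧ g⁻¹ • v0 = e.1

/-- the set of edges of a path -/
def eo : Ω → List (X × Bool) → Set (Ω × X)
  | _, [] => ∅
  | u, a :: l => insert (edge u a) (eo (st u a) l)

theorem eo_finite (u : Ω) (l : List (X × Bool)) : (eo u l).Finite := by
  induction l generalizing u with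
  | nil => exact Set.finite_empty
  | cons a l ih => exact (ih _).insert _

theorem Pth_iff {D : Set (Ω × X)} {u : Ω} {l : List (X × Bool)} : Pth D u l ↔ eo u l ⊆ D := by
  induction l generalizing u with
  | nil => simp [Pth, eo]
  | cons a l ih =>
    rw [Pth_cons, ih]
    exact (Set.insert_subset_iff).symm

theorem conn_eo (u : Ω) (l : List (X × Bool)) : Conn (eo u l) u := by
  induction l generalizing u with
  | nil => intro e he; exact absurd he (Set.notMem_empty _)
  | cons a l ih =>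
    intro e he
    rcases he with rfl | he
    · obtain ⟨x, b⟩ := a
      cases b
      · exact ⟨lt (x, false), PG_lt (Set.mem_insert _ _), rfl⟩
      · exact ⟨1, PG_one _ _, by simp [edge_true]⟩
    · obtain ⟨g, hg, hg'⟩ := ih (st u a) e he
      refine ⟨lt a * g, PG_mul (PG_lt (Set.mem_insert _ _))
        (PG_mono (Set.subset_insert _ _) hg), ?_⟩
      rw [mul_inv_rev, mul_smul]
      exact hg'

theorem Conn_iUnion {ι : Type*} {D : ι → Set (Ω × X)} {v0 : Ω} (h : ∀ i, Conn (D i) v0) :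
    Conn (⋃ i, D i) v0 := by
  intro e he
  obtain ⟨i, hi⟩ := Set.mem_iUnion.1 he
  obtain ⟨g, hg, hg'⟩ := h i e hi
  exact ⟨g, PG_mono (Set.subset_iUnion _ _) hg, hg'⟩

theorem Conn_union {D D' : Set (Ω × X)} {v0 : Ω} (h : Conn D v0) (h' : Conn D' v0) :
    Conn (D ∪ D') v0 := by
  intro e he
  rcases he with he | he
  · obtain ⟨g, hg, hg'⟩ := h e he
    exact ⟨g, PG_mono Set.subset_union_left hg, hg'⟩
  · obtain ⟨g, hg, hg'⟩ := h' e he
    exact ⟨g, PG_mono Set.subset_union_right hg, hg'⟩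

/-- the loop associated with an edge -/
def gam (t : Ω → FreeGroup X) (e : Ω × X) : FreeGroup X :=
  t e.1 * FreeGroup.of e.2 * (t (st e.1 (e.2, true)))⁻¹

theorem gam_lt (t : Ω → FreeGroup X) (u : Ω) (a : X × Bool) :
    t u * lt a * (t (st u a))⁻¹ = if a.2 then gam t (edge u a) else (gam t (edge u a))⁻¹ := by
  obtain ⟨x, b⟩ := a
  cases b
  · rw [if_neg (by simp), edge_false]
    unfold gam
    have e : st (st u (x, false)) (x, true) = u := st_st_inv u (x, false)
    rw [e, mul_inv_rev, mul_inv_rev, _root_.inv_inv, mul_assoc]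
    rfl
  · rw [if_pos rfl, edge_true]
    rfl

theorem Pth_gam {V : Set (Ω × X)} (t : Ω → FreeGroup X) {u : Ω} {l : List (X × Bool)}
    (h : Pth V u l) :
    t u * FreeGroup.mk l * (t ((FreeGroup.mk l)⁻¹ • u))⁻¹ ∈ Subgroup.closure (gam t '' V) := by
  induction l generalizing u with
  | nil =>
    rw [mk_nil, inv_one, one_smul, mul_one, mul_inv_cancel]
    exact one_mem _
  | cons a l ih =>
    have e : t u * FreeGroup.mk (a :: l) * (t ((FreeGroup.mk (a :: l))⁻¹ • u))⁻¹ =
        (t u * lt a * (t (st u a))⁻¹) *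
          (t (st u a) * FreeGroup.mk l * (t ((FreeGroup.mk l)⁻¹ • (st u a)))⁻¹) := by
      rw [mk_cons, mul_inv_rev, mul_smul]
      show _ = (t u * lt a * (t (st u a))⁻¹) *
          (t (st u a) * FreeGroup.mk l * (t ((FreeGroup.mk l)⁻¹ • ((lt a)⁻¹ • u)))⁻¹)
      group
    rw [e]
    refine mul_mem ?_ (ih h.2)
    rw [gam_lt]
    have h1 : gam t (edge u a) ∈ Subgroup.closure (gam t '' V) :=
      Subgroup.subset_closure ⟨_, h.1, rfl⟩
    split_ifs
    · exact h1
    · exact inv_mem h1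

theorem Lp_le_gam {V : Set (Ω × X)} {v0 : Ω} (t : Ω → FreeGroup X) (ht : t v0 = 1) :
    Lp V v0 ≤ Subgroup.closure (gam t '' V) := by
  rintro g ⟨⟨l, rfl, hl⟩, hg⟩
  have := Pth_gam t hl
  rw [inv_smul_eq_iff.2 hg.symm, ht, one_mul, inv_one, mul_one] at this
  exact this

/-- choice of paths -/
theorem exists_tree {V : Set (Ω × X)} {v0 : Ω} :
    ∃ t : Ω → FreeGroup X, t v0 = 1 ∧ ∀ u, (∃ g, PG V v0 g ∧ g⁻¹ • v0 = u) →
      PG V v0 (t u) ∧ (t u)⁻¹ • v0 = u := by
  classical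
  have h : ∀ u : Ω, ∃ g : FreeGroup X, (u = v0 → g = 1) ∧
      ((∃ g, PG V v0 g ∧ g⁻¹ • v0 = u) → PG V v0 g ∧ g⁻¹ • v0 = u) := by
    intro u
    by_cases hu : u = v0
    · refine ⟨1, fun _ => rfl, fun _ => ⟨PG_one _ _, by simp [hu]⟩⟩
    · by_cases h' : ∃ g, PG V v0 g ∧ g⁻¹ • v0 = u
      · obtain ⟨g, hg⟩ := h'
        exact ⟨g, fun h => absurd h hu, fun _ => hg⟩
      · exact ⟨1, fun h => absurd h hu, fun h => absurd h h'⟩
  choose t ht using h
  exact ⟨t, (ht v0).1 rfl, fun u => (ht u).2⟩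

theorem gam_mem {V : Set (Ω × X)} {v0 : Ω} (hV : Conn V v0) {t : Ω → FreeGroup X}
    (ht : ∀ u, (∃ g, PG V v0 g ∧ g⁻¹ • v0 = u) → PG V v0 (t u) ∧ (t u)⁻¹ • v0 = u)
    {e : Ω × X} (he : e ∈ V) : gam t e ∈ Lp V v0 := by
  obtain ⟨g, hg, hg'⟩ := hV e he
  obtain ⟨h1, h2⟩ := ht e.1 ⟨g, hg, hg'⟩
  have h3 : PG V v0 (t e.1 * lt (e.2, true)) := by
    apply PG_mul h1
    rw [h2]
    exact PG_lt (by rw [edge_true]; exact he)
  have h4 : (t e.1 * lt (e.2, true))⁻¹ • v0 = st e.1 (e.2, true) := by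
    rw [mul_inv_rev, mul_smul, h2]; rfl
  obtain ⟨h5, h6⟩ := ht _ ⟨_, h3, h4⟩
  have h7 : PG V (st e.1 (e.2, true)) (t (st e.1 (e.2, true)))⁻¹ := by
    have := PG_inv h5
    rwa [h6] at this
  refine ⟨PG_mul h3 (by
    rw [show (t e.1 * FreeGroup.of e.2)⁻¹ • v0 = st e.1 (e.2, true) from h4]; exact h7), ?_⟩
  show (t e.1 * lt (e.2, true) * (t (st e.1 (e.2, true)))⁻¹) • v0 = v0
  rw [mul_smul, h6, ← h4, smul_inv_smul]

end conn

end Pool.Agent.H355.Units
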