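import Pool.Agent.H355.Units.Stack

set_option autoImplicit false

/-!
# Closed sets of relator loops and the free edge lemma
-/

namespace Pool.Agent.H355.Units

open Pool.H679R3.OR

variable {X : Type} {Ω : Type*} [MulAction (FreeGroup X) Ω] (w : Wd X)

/-- prefixes of the periodic word -/
def wv (i : ℕ) : FreeGroup X := W FreeGroup.of w.ℓ i

theorem wv_zero : wv w 0 = 1 := rfl
theorem wv_succ (i : ℕ) : wv w (i + 1) = wv w i * lt (w.ℓ i) := rfl
theorem wv_mul_add (k i : ℕ) : wv w (w.L * k + i) = wv w w.L ^ k * wv w i := w.W_mul_add _ k i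
theorem wv_mul (k : ℕ) : wv w (w.L * k) = wv w w.L ^ k := w.W_mul _ k

/-- vertex reached from `v` after reading `i` letters -/
def vt (v : Ω) (i : ℕ) : Ω := (wv w i)⁻¹ • v

theorem vt_zero (v : Ω) : vt w v 0 = v := by simp [vt, wv_zero]

theorem vt_succ (v : Ω) (i : ℕ) : vt w v (i + 1) = st (vt w v i) (w.ℓ i) := by
  unfold vt st
  rw [wv_succ, mul_inv_rev, mul_smul]

theorem vt_mul_add (v : Ω) (k i : ℕ) : vt w v (w.L * k + i) = vt w (vt w v (w.L * k)) i := by
  unfold vt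
  rw [wv_mul_add, wv_mul, mul_inv_rev, mul_smul]

theorem vt_inj {u v : Ω} {i : ℕ} (h : vt w u i = vt w v i) : u = v :=
  (MulAction.injective _) h

/-- the translation by one period -/
def sig (v : Ω) : Ω := vt w v w.L

theorem sig_inj : Function.Injective (sig w : Ω → Ω) := fun _ _ h => vt_inj w h

theorem sig_iter (v : Ω) (s : ℕ) : (sig w)^[s] v = vt w v (w.L * s) := by
  induction s with
  | zero => simp [vt_zero]
  | succ s ih =>
    rw [Function.iterate_succ_apply', ih, Nat.mul_succ, vt_mul_add]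
    rfl

theorem vt_iter_add (v : Ω) (s i : ℕ) : vt w v (w.L * s + i) = vt w ((sig w)^[s] v) i := by
  rw [vt_mul_add, sig_iter]

/-- a finite set of vertices closed under the translation, at which the `n`-th power closes up -/
def Cl (n : ℕ) (A : Finset Ω) : Prop := (∀ v ∈ A, sig w v ∈ A) ∧ ∀ v ∈ A, (sig w)^[n] v = v

variable [DecidableEq Ω] [DecidableEq X]

/-- the flags of a set of vertices -/
def fl (A : Finset Ω) : Finset (Ω × ZMod w.L) :=
  (A ×ˢ Finset.range w.L).image (fun p => (vt w p.1 p.2, (p.2 : ZMod w.L)))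

/-- the edges covered -/
def cov (A : Finset Ω) : Finset (Ω × X) := (fl w A).image (ed w)

variable {w}

omit [DecidableEq X] in
theorem mem_fl {A : Finset Ω} {f : Ω × ZMod w.L} :
    f ∈ fl w A ↔ ∃ v ∈ A, ∃ i < w.L, f = (vt w v i, (i : ZMod w.L)) := by
  unfold fl
  simp only [Finset.mem_image, Finset.mem_product, Finset.mem_range, Prod.exists]
  constructor
  · rintro ⟨v, i, ⟨hv, hi⟩, rfl⟩
    exact ⟨v, hv, i, hi, rfl⟩
  · rintro ⟨v, hv, i, hi, rfl⟩
    exact ⟨v, i, ⟨hv, hi⟩, rfl⟩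

omit [DecidableEq Ω] [DecidableEq X] in
theorem ed_vt (v : Ω) (i : ℕ) : ed w (vt w v i, (i : ZMod w.L)) = edge (vt w v i) (w.ℓ i) := by
  unfold ed
  rw [lz_natCast]

omit [DecidableEq Ω] [DecidableEq X] in
theorem iter_mem {n : ℕ} {A : Finset Ω} (hA : Cl w n A) {v : Ω} (hv : v ∈ A) (s : ℕ) :
    (sig w)^[s] v ∈ A := by
  induction s with
  | zero => exact hv
  | succ s ih => rw [Function.iterate_succ_apply']; exact hA.1 _ ih

omit [DecidableEq X] in
theorem fl_all {n : ℕ} {A : Finset Ω} (hA : Cl w n A) {v : Ω} (hv : v ∈ A) (i : ℕ) :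
    (vt w v i, (i : ZMod w.L)) ∈ fl w A := by
  rw [mem_fl]
  refine ⟨(sig w)^[i / w.L] v, iter_mem hA hv _, i % w.L, Nat.mod_lt _ w.pos, ?_⟩
  rw [← vt_iter_add, Nat.div_add_mod]
  simp

theorem cov_all {n : ℕ} {A : Finset Ω} (hA : Cl w n A) {v : Ω} (hv : v ∈ A) (i : ℕ) :
    edge (vt w v i) (w.ℓ i) ∈ cov w A := by
  rw [← ed_vt]
  exact Finset.mem_image_of_mem _ (fl_all hA hv i)

omit [DecidableEq X] in
theorem nx_mem {n : ℕ} {A : Finset Ω} (hA : Cl w n A) : ∀ f ∈ fl w A, nx w f ∈ fl w A := by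
  intro f hf
  obtain ⟨v, hv, i, hi, rfl⟩ := mem_fl.1 hf
  have h : nx w (vt w v i, (i : ZMod w.L)) = (vt w v (i + 1), ((i + 1 : ℕ) : ZMod w.L)) := by
    unfold nx
    rw [lz_natCast, vt_succ]
    push_cast
    rfl
  rw [h]
  exact fl_all hA hv _

omit [DecidableEq X] in
theorem card_base (A : Finset Ω) : ((fl w A).filter (fun f => f.2 = 0)).card = A.card := by
  symm
  apply Finset.card_bij (fun v _ => ((v, 0) : Ω × ZMod w.L))
  · intro v hv
    refine Finset.mem_filter.2 ⟨mem_fl.2 ⟨v, hv, 0, w.pos, ?_⟩, rfl⟩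
    rw [vt_zero, Nat.cast_zero]
  · intro u _ v _ h
    exact congrArg Prod.fst h
  · intro f hf
    obtain ⟨h1, h2⟩ := Finset.mem_filter.1 hf
    obtain ⟨v, hv, i, hi, rfl⟩ := mem_fl.1 h1
    have h3 : i = 0 := by
      have h4 : ((i : ℕ) : ZMod w.L) = 0 := h2
      have h5 := congrArg ZMod.val h4
      rw [ZMod.val_natCast, ZMod.val_zero, Nat.mod_eq_of_lt hi] at h5
      exact h5
    subst h3
    refine ⟨v, hv, ?_⟩
    rw [vt_zero, Nat.cast_zero]

omit [DecidableEq Ω] [DecidableEq X] in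
/-- segments of the periodic line -/
theorem PG_seg {D : Set (Ω × X)} (v : Ω) (a m : ℕ)
    (h : ∀ t, a ≤ t → t < a + m → edge (vt w v t) (w.ℓ t) ∈ D) :
    PG D (vt w v a) ((wv w a)⁻¹ * wv w (a + m)) := by
  induction m with
  | zero => simpa using PG_one D _
  | succ m ih =>
    have h1 := ih (fun t h1 h2 => h t h1 (by omega))
    rw [← add_assoc, wv_succ, ← mul_assoc]
    refine PG_mul h1 (PG_lt ?_)
    have e : ((wv w a)⁻¹ * wv w (a + m))⁻¹ • vt w v a = vt w v (a + m) := by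
      unfold vt
      rw [← mul_smul]
      congr 1
      group
    rw [e]
    exact h (a + m) (by omega) (by omega)

omit [DecidableEq Ω] [DecidableEq X] in
theorem PG_wv {D : Set (Ω × X)} (v : Ω) (m : ℕ)
    (h : ∀ t, t < m → edge (vt w v t) (w.ℓ t) ∈ D) :
    PG D v (wv w m) := by
  have := PG_seg (D := D) (w := w) v 0 m (fun t _ ht => h t (by omega))
  rwa [vt_zero, wv_zero, inv_one, one_mul, zero_add] at this

omit [DecidableEq Ω] [DecidableEq X] in
theorem hol_wv_succ {G : Type*} [Group G] (φ : Ω × X → G) (v : Ω) (i : ℕ) :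
    hol φ v (wv w (i + 1)) = hol φ v (wv w i) * hl φ (vt w v i) (w.ℓ i) := by
  rw [wv_succ, hol_mul, hol_lt]
  rfl

omit [DecidableEq Ω] [DecidableEq X] in
theorem sig_iter_smul (v : Ω) (s : ℕ) : (sig w)^[s] v = (wv w w.L ^ s)⁻¹ • v := by
  rw [sig_iter, vt, wv_mul]

omit [DecidableEq Ω] [DecidableEq X] in
theorem hol_iter {G : Type*} [Group G] (φ : Ω × X → G) (v : Ω) (n s : ℕ)
    (hv : (sig w)^[n] v = v) (h : hol φ v (wv w (w.L * n)) = 1) :
    hol φ ((sig w)^[s] v) (wv w (w.L * n)) = 1 := by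
  have h0 : (wv w w.L ^ n) • v = v := by
    rw [sig_iter_smul, inv_smul_eq_iff] at hv
    exact hv.symm
  have h1 : (wv w w.L ^ n) • ((wv w w.L ^ s)⁻¹ • v) = (wv w w.L ^ s)⁻¹ • v := by
    rw [← mul_smul]
    have e : wv w w.L ^ n * (wv w w.L ^ s)⁻¹ = (wv w w.L ^ s)⁻¹ * wv w w.L ^ n := by
      have := Commute.pow_pow (Commute.refl (wv w w.L)) n s
      exact (this.inv_right).eq
    rw [e, mul_smul, h0]
  have h2 := hol_conj φ v (wv w w.L ^ s) (wv w w.L ^ n) h1
  have e : wv w w.L ^ s * wv w w.L ^ n * (wv w w.L ^ s)⁻¹ = wv w w.L ^ n := by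
    rw [(Commute.pow_pow (Commute.refl (wv w w.L)) s n).eq, mul_inv_cancel_right]
  rw [e, ← wv_mul w n, h] at h2
  rw [sig_iter_smul]
  have h3 : hol φ v (wv w w.L ^ s) * hol φ ((wv w w.L ^ s)⁻¹ • v) (wv w (w.L * n)) =
      hol φ v (wv w w.L ^ s) := by
    have := congrArg (fun x => x * hol φ v (wv w w.L ^ s)) h2
    simpa using this.symm
  exact mul_eq_left.1 h3

omit [DecidableEq Ω] [DecidableEq X] in
/-- removing the orbit of `v` -/
theorem Cl_remove {n : ℕ} (hn : 0 < n) {A : Finset Ω} (hA : Cl w n A) {v : Ω} (hv : v ∈ A)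
    [DecidablePred (fun u : Ω => ∀ s : ℕ, u ≠ (sig w)^[s] v)] :
    Cl w n (A.filter (fun u => ∀ s : ℕ, u ≠ (sig w)^[s] v)) := by
  refine ⟨?_, fun u hu => hA.2 u (Finset.mem_filter.1 hu).1⟩
  intro u hu
  obtain ⟨h1, h2⟩ := Finset.mem_filter.1 hu
  refine Finset.mem_filter.2 ⟨hA.1 u h1, ?_⟩
  intro s hs
  cases s with
  | zero =>
    have h3 : sig w u = (sig w)^[n] v := by rw [hA.2 v hv]; exact hs
    obtain ⟨m, rfl⟩ : ∃ m, n = m + 1 := ⟨n - 1, by omega⟩
    rw [Function.iterate_succ_apply'] at h3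
    exact h2 m (sig_inj w h3)
  | succ s =>
    rw [Function.iterate_succ_apply'] at hs
    exact h2 s (sig_inj w hs)

/-- The free edge lemma. -/
theorem fee {n : ℕ} (hn : 0 < n) {A : Finset Ω} (hA : Cl w n A) {v : Ω} (hv : v ∈ A) {i : ℕ}
    (hi : i < w.L)
    (hu : ∀ g ∈ fl w A, ed w g = edge (vt w v i) (w.ℓ i) → g = (vt w v i, (i : ZMod w.L)))
    {G : Type*} [Group G] (φ : Ω × X → G) :
    ∃ c : G, ∀ s, hol (Function.update φ (edge (vt w v i) (w.ℓ i)) c) ((sig w)^[s] v)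
      (wv w (w.L * n)) = 1 := by
  set e := edge (vt w v i) (w.ℓ i) with he
  set j := Function.minimalPeriod (sig w) v with hj
  have hper : Function.IsPeriodicPt (sig w) n v := hA.2 v hv
  have hj0 : 0 < j := hper.minimalPeriod_pos hn
  have hjn : j ∣ n := hper.minimalPeriod_dvd
  have hjv : (sig w)^[j] v = v := Function.isPeriodicPt_minimalPeriod (sig w) v
  -- edges of the loop different from `e`
  have hne : ∀ t, t < w.L * j → t ≠ i → edge (vt w v t) (w.ℓ t) ∈ ({e}ᶜ : Set (Ω × X)) := by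
    intro t ht hti hte
    have hte' : edge (vt w v t) (w.ℓ t) = e := hte
    have h1 := hu _ (fl_all hA hv t) (by rw [ed_vt]; exact hte')
    have h2 : vt w v t = vt w v i := congrArg Prod.fst h1
    have h3 : ((t : ℕ) : ZMod w.L) = (i : ZMod w.L) := congrArg Prod.snd h1
    have h4 : t % w.L = i := by
      have := congrArg ZMod.val h3
      rwa [ZMod.val_natCast, ZMod.val_natCast, Nat.mod_eq_of_lt hi] at this
    have h5 : t = w.L * (t / w.L) + i := by
      conv_lhs => rw [← Nat.div_add_mod t w.L]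
      rw [h4]
    have h6 : (sig w)^[t / w.L] v = v := by
      rw [h5, vt_iter_add] at h2
      exact vt_inj w h2
    have h7 : j ∣ t / w.L := Function.IsPeriodicPt.minimalPeriod_dvd h6
    have h8 : t / w.L < j := by
      apply Nat.div_lt_of_lt_mul
      exact ht
    have h9 : t / w.L = 0 := by
      rcases Nat.eq_zero_or_pos (t / w.L) with h | h
      · exact h
      · exact absurd (Nat.le_of_dvd h h7) (by omega)
    apply hti
    rw [h9] at h5
    omega
  have hiL : i < w.L * j := lt_of_lt_of_le hi (Nat.le_mul_of_pos_right _ hj0)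
  -- the decomposition
  obtain ⟨m, hm⟩ : ∃ m, w.L * j = (i + 1) + m := ⟨w.L * j - (i + 1), by omega⟩
  have hP : ∀ c, hol (Function.update φ e c) v (wv w i) = hol φ v (wv w i) := by
    intro c
    apply hol_congr (D := ({e}ᶜ : Set (Ω × X)))
    · intro e' he'
      exact Function.update_of_ne he' _ _
    · exact PG_wv v i (fun t ht => hne t (by omega) (by omega))
  have hQ : ∀ c, hol (Function.update φ e c) (vt w v (i + 1))
      ((wv w (i + 1))⁻¹ * wv w ((i + 1) + m)) =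
      hol φ (vt w v (i + 1)) ((wv w (i + 1))⁻¹ * wv w ((i + 1) + m)) := by
    intro c
    apply hol_congr (D := ({e}ᶜ : Set (Ω × X)))
    · intro e' he'
      exact Function.update_of_ne he' _ _
    · exact PG_seg v (i + 1) m (fun t ht ht' => hne t (by omega) (by omega))
  have hdec : ∀ c, hol (Function.update φ e c) v (wv w (w.L * j)) =
      hol φ v (wv w i) * hl (Function.update φ e c) (vt w v i) (w.ℓ i) *
        hol φ (vt w v (i + 1)) ((wv w (i + 1))⁻¹ * wv w ((i + 1) + m)) := by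
    intro c
    have e1 : wv w (w.L * j) = wv w (i + 1) * ((wv w (i + 1))⁻¹ * wv w ((i + 1) + m)) := by
      rw [hm]; group
    rw [e1, hol_mul, hol_wv_succ, hP]
    congr 1
    exact hQ c
  set P := hol φ v (wv w i)
  set Q := hol φ (vt w v (i + 1)) ((wv w (i + 1))⁻¹ * wv w ((i + 1) + m))
  have hc : ∃ c, hl (Function.update φ e c) (vt w v i) (w.ℓ i) = P⁻¹ * Q⁻¹ := by
    unfold hl
    rw [← he]
    by_cases hb : (w.ℓ i).2
    · exact ⟨P⁻¹ * Q⁻¹, by simp [hb]⟩
    · exact ⟨(P⁻¹ * Q⁻¹)⁻¹, by simp [hb]⟩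
  obtain ⟨c, hc⟩ := hc
  refine ⟨c, fun s => ?_⟩
  apply hol_iter _ _ _ _ (hA.2 v hv)
  have h1 : hol (Function.update φ e c) v (wv w (w.L * j)) = 1 := by
    rw [hdec, hc]; group
  have h2 : wv w (w.L * j) ∈ hker (Function.update φ e c) v := by
    refine ⟨?_, h1⟩
    rw [sig_iter_smul, inv_smul_eq_iff] at hjv
    rw [wv_mul]
    exact hjv.symm
  obtain ⟨q, rfl⟩ := hjn
  have h3 : wv w (w.L * (j * q)) = wv w (w.L * j) ^ q := by
    rw [wv_mul, wv_mul, pow_mul]
  rw [h3]
  exact ((hker _ v).pow_mem h2 q).2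

end Pool.Agent.H355.Units
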