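import Mathlib

set_option autoImplicit false

/-!
# Special inverse monoids with one defining relation

Words over `A ∪ A⁻¹` are elements of `FreeMonoid (A × Bool)`: the letter `(a, true)` is `a` and the
letter `(a, false)` is `a⁻¹`.
-/

namespace Pool.Agent.H355.Units

/-- the formal inverse of a word over `A ∪ A⁻¹` -/
def winv {A : Type} (u : FreeMonoid (A × Bool)) : FreeMonoid (A × Bool) :=
  FreeMonoid.ofList ((u.toList.map (fun a => (a.1, !a.2))).reverse)

/-- The defining pairs of `Inv⟨A ∣ R = 1⟩`: the two families of the Wagner congruence (which give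
the free inverse monoid on `A`) and the pair `(R, 1)`. -/
inductive InvRel {A : Type} (R : FreeMonoid (A × Bool)) :
    FreeMonoid (A × Bool) → FreeMonoid (A × Bool) → Prop
  | regular (u : FreeMonoid (A × Bool)) : InvRel R (u * winv u * u) u
  | commute (u v : FreeMonoid (A × Bool)) :
      InvRel R (u * winv u * (v * winv v)) (v * winv v * (u * winv u))
  | rel : InvRel R R 1

/-- `Inv⟨A ∣ R = 1⟩` -/
abbrev InvMon {A : Type} (R : FreeMonoid (A × Bool)) : Type := (conGen (InvRel R)).Quotient

/-- the element of the free group on `A` represented by a word -/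
def grp {A : Type} (u : FreeMonoid (A × Bool)) : FreeGroup A := FreeGroup.mk u.toList

end Pool.Agent.H355.Units
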