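import Pool.Agent.H355.Units.Closed

set_option autoImplicit false

/-!
# The dimension count
-/

namespace Pool.Agent.H355.Units

open Pool.H679R3.OR

variable {X : Type} {Ω : Type*} [MulAction (FreeGroup X) Ω] {w : Wd X}

/-- every `k`-cocycle vanishing on `E0` is a coboundary on the edges covered by `A` -/
def PP [DecidableEq Ω] [DecidableEq X] (w : Wd X) (n : ℕ) (k : Type) [Field k] (A : Finset Ω)
    (E0 : Finset (Ω × X)) : Prop :=
  ∀ φ : Ω × X → Multiplicative k, (∀ v ∈ A, hol φ v (wv w (w.L * n)) = 1) →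
    (∀ e ∈ E0, φ e = 1) →
    ∃ f : Ω → Multiplicative k, ∀ e ∈ cov w A, φ e = (f e.1)⁻¹ * f (st e.1 (e.2, true))

section
variable {k : Type} [Field k]

/-- sign of a letter -/
def sgn (k : Type) [Field k] (a : X × Bool) : k := if a.2 then 1 else -1

theorem toAdd_hol (ψ : Ω × X → k) (v : Ω) (m : ℕ) :
    (hol (fun e => Multiplicative.ofAdd (ψ e)) v (wv w m)).toAdd =
      ∑ t ∈ Finset.range m, sgn k (w.ℓ t) * ψ (edge (vt w v t) (w.ℓ t)) := by
  induction m with
  | zero => rw [Finset.range_zero, Finset.sum_empty]; rfl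
  | succ m ih =>
    rw [hol_wv_succ, toAdd_mul, ih, Finset.sum_range_succ]
    congr 1
    unfold hl sgn
    by_cases hb : (w.ℓ m).2
    · simp [hb]
    · simp [hb]

theorem toAdd_hol_mul (ψ : Ω × X → k) (v : Ω) (n : ℕ) :
    (hol (fun e => Multiplicative.ofAdd (ψ e)) v (wv w (w.L * n))).toAdd =
      ∑ s ∈ Finset.range n, ∑ t ∈ Finset.range w.L,
        sgn k (w.ℓ t) * ψ (edge (vt w ((sig w)^[s] v) t) (w.ℓ t)) := by
  induction n with
  | zero => rw [Nat.mul_zero, Finset.range_zero, Finset.sum_empty]; rfl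
  | succ n ih =>
    rw [Finset.sum_range_succ, ← ih, ← toAdd_hol, wv_mul, wv_mul, pow_succ, hol_mul, toAdd_mul]
    congr 3
    exact (sig_iter_smul v n).symm

variable [DecidableEq Ω] [DecidableEq X]

theorem ends_mem {n : ℕ} {A : Finset Ω} (hA : Cl w n A) {e : Ω × X} (he : e ∈ cov w A) :
    e.1 ∈ (fl w A).image Prod.fst ∧ st e.1 (e.2, true) ∈ (fl w A).image Prod.fst := by
  obtain ⟨f, hf, rfl⟩ := Finset.mem_image.1 he
  have h1 : f.1 ∈ (fl w A).image Prod.fst := Finset.mem_image_of_mem _ hf
  have h2 : (nx w f).1 ∈ (fl w A).image Prod.fst := Finset.mem_image_of_mem _ (nx_mem hA f hf)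
  have h3 : (nx w f).1 = st f.1 (lz w f.2) := rfl
  unfold ed
  rcases h : lz w f.2 with ⟨x, b⟩
  rw [h] at h3
  cases b
  · rw [edge_false]
    refine ⟨h3 ▸ h2, ?_⟩
    show st (st f.1 (x, false)) (inv (x, false)) ∈ _
    rw [st_st_inv]
    exact h1
  · rw [edge_true]
    exact ⟨h1, h3 ▸ h2⟩

theorem dim_ineq {n : ℕ} (hn : 0 < n) (hnk : (n : k) = 0) {A : Finset Ω} (hA : Cl w n A)
    (E0 : Finset (Ω × X)) (hPP : PP w n k A E0) :
    ∃ q, A.card ≤ n * q ∧
      (cov w A).card + q ≤ A.card + E0.card + ((fl w A).image Prod.fst).card := by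
  classical
  set C := cov w A with hC
  set V := (fl w A).image Prod.fst with hV
  -- extension by zero
  let ext : (C → k) →ₗ[k] (Ω × X → k) :=
    { toFun := fun ψ e => if h : e ∈ C then ψ ⟨e, h⟩ else 0
      map_add' := by
        intro a b
        funext e
        by_cases h : e ∈ C <;> simp [h]
      map_smul' := by
        intro c a
        funext e
        by_cases h : e ∈ C <;> simp [h] }
  have hext : ∀ (ψ : C → k) (e : Ω × X) (h : e ∈ C), ext ψ e = ψ ⟨e, h⟩ := by
    intro ψ e h
    show (if h : e ∈ C then ψ ⟨e, h⟩ else 0) = _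
    rw [dif_pos h]
  let Λ : (Ω × X → k) →ₗ[k] (A → k) :=
    { toFun := fun ψ v => ∑ t ∈ Finset.range w.L,
        sgn k (w.ℓ t) * ψ (edge (vt w v.1 t) (w.ℓ t))
      map_add' := by
        intro a b
        funext v
        simp only [Pi.add_apply, mul_add, Finset.sum_add_distrib]
      map_smul' := by
        intro c a
        funext v
        simp only [Pi.smul_apply, smul_eq_mul, RingHom.id_apply, Finset.mul_sum]
        apply Finset.sum_congr rfl
        intro t _
        ring }
  let N : (A → k) →ₗ[k] (A → k) :=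
    { toFun := fun h v => ∑ s ∈ Finset.range n, h ⟨(sig w)^[s] v.1, iter_mem hA v.2 s⟩
      map_add' := by
        intro a b
        funext v
        simp only [Pi.add_apply, Finset.sum_add_distrib]
      map_smul' := by
        intro c a
        funext v
        simp only [Pi.smul_apply, smul_eq_mul, RingHom.id_apply, Finset.mul_sum] }
  have hNΛ : ∀ (ψ : Ω × X → k) (v : A), N (Λ ψ) v =
      (hol (fun e => Multiplicative.ofAdd (ψ e)) v.1 (wv w (w.L * n))).toAdd := by
    intro ψ v
    rw [toAdd_hol_mul]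
    rfl
  let res : (Ω × X → k) →ₗ[k] (E0 → k) :=
    { toFun := fun ψ e => ψ e.1
      map_add' := fun _ _ => rfl
      map_smul' := fun _ _ => rfl }
  let T : (C → k) →ₗ[k] ((A → k) × (E0 → k)) :=
    LinearMap.prod (N.comp (Λ.comp ext)) (res.comp ext)
  -- orbits
  let S : Setoid A :=
    { r := fun u v => ∃ s : ℕ, (sig w)^[s] u.1 = v.1
      iseqv := by
        refine ⟨fun u => ⟨0, rfl⟩, ?_, ?_⟩
        · rintro ⟨u, hu⟩ ⟨v, hv⟩ ⟨s, rfl⟩
          refine ⟨(n - 1) * s, ?_⟩
          show (sig w)^[(n - 1) * s] ((sig w)^[s] u) = u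
          rw [← Function.iterate_add_apply]
          have e : (n - 1) * s + s = n * s := by
            obtain ⟨m, rfl⟩ : ∃ m, n = m + 1 := ⟨n - 1, by omega⟩
            simp only [Nat.add_sub_cancel]; ring
          rw [e]
          exact (Function.IsPeriodicPt.mul_const (hA.2 u hu) s)
        · rintro ⟨u, hu⟩ ⟨v, hv⟩ ⟨x, hx⟩ ⟨s, hs⟩ ⟨t, ht⟩
          refine ⟨t + s, ?_⟩
          rw [Function.iterate_add_apply, hs, ht] }
  let Q := Quotient S
  haveI : Fintype Q := Quotient.fintype S
  let π : (Q → k) →ₗ[k] (A → k) :=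
    { toFun := fun h v => h (Quotient.mk S v)
      map_add' := fun _ _ => rfl
      map_smul' := fun _ _ => rfl }
  have hπ : Function.Injective π := by
    intro h h' he
    funext q
    obtain ⟨v, rfl⟩ := Quotient.exists_rep q
    exact congrFun he v
  have hNπ : LinearMap.range π ≤ LinearMap.ker N := by
    rintro _ ⟨h, rfl⟩
    rw [LinearMap.mem_ker]
    funext v
    show ∑ s ∈ Finset.range n, h (Quotient.mk S ⟨(sig w)^[s] v.1, iter_mem hA v.2 s⟩) = 0
    have : ∀ s ∈ Finset.range n, h (Quotient.mk S ⟨(sig w)^[s] v.1, iter_mem hA v.2 s⟩) =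
        h (Quotient.mk S v) := by
      intro s _
      congr 1
      apply Quotient.sound
      apply S.symm
      exact ⟨s, rfl⟩
    rw [Finset.sum_congr rfl this, Finset.sum_const, Finset.card_range, nsmul_eq_mul, hnk,
      zero_mul]
  have hQ1 : Fintype.card Q ≤ Module.finrank k (LinearMap.ker N) := by
    have h1 := LinearMap.finrank_range_of_inj hπ
    have h2 := Submodule.finrank_mono hNπ
    rw [h1, Module.finrank_fintype_fun_eq_card] at h2
    exact h2
  have hQ2 : Module.finrank k (LinearMap.range N) + Module.finrank k (LinearMap.ker N) =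
      A.card := by
    rw [LinearMap.finrank_range_add_finrank_ker, Module.finrank_fintype_fun_eq_card,
      Fintype.card_coe]
  -- rank of `T`
  have hT1 : Module.finrank k (LinearMap.range T) ≤
      Module.finrank k (LinearMap.range N) + E0.card := by
    have h1 : LinearMap.range T ≤ (LinearMap.range N).prod ⊤ := by
      rintro _ ⟨ψ, rfl⟩
      exact ⟨⟨_, rfl⟩, trivial⟩
    refine le_trans (Submodule.finrank_mono h1) ?_
    let incl : (LinearMap.range N) × (E0 → k) →ₗ[k] ((A → k) × (E0 → k)) :=
      LinearMap.prodMap (LinearMap.range N).subtype LinearMap.id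
    have h2 : (LinearMap.range N).prod ⊤ ≤ LinearMap.range incl := by
      rintro ⟨a, b⟩ ⟨ha, -⟩
      exact ⟨(⟨a, ha⟩, b), rfl⟩
    refine le_trans (Submodule.finrank_mono h2) ?_
    refine le_trans (LinearMap.finrank_range_le incl) ?_
    rw [Module.finrank_prod, Module.finrank_fintype_fun_eq_card, Fintype.card_coe]
  have hT2 : Module.finrank k (LinearMap.range T) + Module.finrank k (LinearMap.ker T) =
      C.card := by
    rw [LinearMap.finrank_range_add_finrank_ker, Module.finrank_fintype_fun_eq_card,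
      Fintype.card_coe]
  -- kernel of `T`
  let δ : (V → k) →ₗ[k] (C → k) :=
    { toFun := fun f e => f ⟨st e.1.1 (e.1.2, true), (ends_mem hA e.2).2⟩ -
        f ⟨e.1.1, (ends_mem hA e.2).1⟩
      map_add' := by
        intro a b
        funext e
        simp only [Pi.add_apply]; ring
      map_smul' := by
        intro c a
        funext e
        simp only [Pi.smul_apply, smul_eq_mul, RingHom.id_apply]; ring }
  have hker : LinearMap.ker T ≤ LinearMap.range δ := by
    intro ψ hψ
    rw [LinearMap.mem_ker] at hψ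
    have h1 : N (Λ (ext ψ)) = 0 := congrArg Prod.fst hψ
    have h2 : res (ext ψ) = 0 := congrArg Prod.snd hψ
    obtain ⟨f, hf⟩ := hPP (fun e => Multiplicative.ofAdd (ext ψ e)) (by
      intro v hv
      have h3 := hNΛ (ext ψ) ⟨v, hv⟩
      rw [h1] at h3
      apply Multiplicative.toAdd.injective
      exact h3.symm) (by
      intro e he
      have h3 := congrFun h2 ⟨e, he⟩
      have h4 : ext ψ e = 0 := h3
      rw [h4]; rfl)
    refine ⟨fun u => (f u.1).toAdd, ?_⟩
    funext e
    have h5 := congrArg Multiplicative.toAdd (hf e.1 e.2)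
    rw [toAdd_mul, toAdd_inv] at h5
    show (f (st e.1.1 (e.1.2, true))).toAdd - (f e.1.1).toAdd = ψ e
    have h6 : ext ψ e.1 = ψ e := hext ψ e.1 e.2
    rw [← h6]
    have h7 : ext ψ e.1 = -(f e.1.1).toAdd + (f (st e.1.1 (e.1.2, true))).toAdd := h5
    rw [h7]; ring
  have hT3 : Module.finrank k (LinearMap.ker T) ≤ V.card := by
    refine le_trans (Submodule.finrank_mono hker) ?_
    refine le_trans (LinearMap.finrank_range_le δ) ?_
    rw [Module.finrank_fintype_fun_eq_card, Fintype.card_coe]
  refine ⟨Fintype.card Q, ?_, by omega⟩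
  -- fibres
  have h1 : (Finset.univ : Finset A).card ≤ n * ((Finset.univ : Finset A).image
      (fun v => (Quotient.mk S v : Q))).card := by
    apply Finset.card_le_mul_card_image
    intro q hq
    obtain ⟨v, -, rfl⟩ := Finset.mem_image.1 hq
    have h2 : (Finset.univ.filter (fun u : A => (Quotient.mk S u : Q) = Quotient.mk S v)) ⊆
        (Finset.range n).image
          (fun s => (⟨(sig w)^[s] v.1, iter_mem hA v.2 s⟩ : A)) := by
      intro u hu
      have h3 := (Finset.mem_filter.1 hu).2
      obtain ⟨s, hs⟩ := S.symm (Quotient.exact h3)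
      refine Finset.mem_image.2 ⟨s % n, Finset.mem_range.2 (Nat.mod_lt _ hn), ?_⟩
      apply Subtype.ext
      show (sig w)^[s % n] v.1 = u.1
      rw [Function.IsPeriodicPt.iterate_mod_apply (hA.2 v.1 v.2)]
      exact hs
    calc _ ≤ _ := Finset.card_le_card h2
      _ ≤ (Finset.range n).card := Finset.card_image_le
      _ = n := Finset.card_range n
  rw [Finset.card_univ, Fintype.card_coe] at h1
  refine le_trans h1 (Nat.mul_le_mul_left _ ?_)
  exact Finset.card_le_univ _

end

end Pool.Agent.H355.Units
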