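import Pool.Agent.H355.Units.Lift

set_option autoImplicit false

/-!
# Finite presentability
-/

namespace Pool.Agent.H355.Units

open Pool.H679R3.OR

/-- a retract of a finitely generated free group is finitely presented -/
theorem fp_retract {ι G : Type*} [Finite ι] [Group G] (γ : FreeGroup ι →* G) (χ : G →* FreeGroup ι)
    (h : ∀ g, γ (χ g) = g) : Group.IsFinitelyPresented G := by
  have hs : Function.Surjective γ := fun g => ⟨χ g, h g⟩
  refine Group.IsFinitelyPresented.of_surjective γ hs ?_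
  refine ⟨Set.range (fun i : ι => FreeGroup.of i * (χ (γ (FreeGroup.of i)))⁻¹),
    Set.finite_range _, ?_⟩
  set M := Subgroup.normalClosure
    (Set.range (fun i : ι => FreeGroup.of i * (χ (γ (FreeGroup.of i)))⁻¹)) with hM
  apply le_antisymm
  · apply Subgroup.normalClosure_le_normal
    rintro _ ⟨i, rfl⟩
    show γ (FreeGroup.of i * (χ (γ (FreeGroup.of i)))⁻¹) = 1
    rw [map_mul, map_inv, h, mul_inv_cancel]
  · intro z hz
    have h1 : (QuotientGroup.mk' M) = ((QuotientGroup.mk' M).comp χ).comp γ := by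
      apply FreeGroup.ext_hom
      intro i
      show (QuotientGroup.mk' M) (FreeGroup.of i) =
        (QuotientGroup.mk' M) (χ (γ (FreeGroup.of i)))
      rw [← mul_inv_eq_one, ← map_inv, ← map_mul]
      refine (QuotientGroup.eq_one_iff _).2 ?_
      exact Subgroup.subset_normalClosure ⟨i, rfl⟩
    have h2 := DFunLike.congr_fun h1 z
    have h3 : γ z = 1 := hz
    rw [MonoidHom.comp_apply, h3, map_one] at h2
    exact (QuotientGroup.eq_one_iff _).1 h2

theorem hll_map {X : Type} {Ω : Type*} [MulAction (FreeGroup X) Ω] {G G' : Type*} [Group G]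
    [Group G'] (f : G →* G') (φ : Ω × X → G) (u : Ω) (l : List (X × Bool)) :
    hll (fun e => f (φ e)) u l = f (hll φ u l) := by
  induction l generalizing u with
  | nil => exact (map_one f).symm
  | cons a l ih =>
    show Units.hl _ u a * hll _ (st u a) l = f (Units.hl φ u a * hll φ (st u a) l)
    rw [ih, map_mul]
    congr 1
    unfold Units.hl
    split_ifs
    · rfl
    · rw [map_inv]

section
variable {X : Type} {Ω : Type*} [MulAction (FreeGroup X) Ω]

/-- reachable vertices -/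
def Rch (V : Set (Ω × X)) (v0 u : Ω) : Prop := ∃ g, PG V v0 g ∧ g⁻¹ • v0 = u

theorem Rch_base (V : Set (Ω × X)) (v0 : Ω) : Rch V v0 v0 := ⟨1, PG_one _ _, by simp⟩

theorem Rch_st {V : Set (Ω × X)} {v0 u : Ω} (h : Rch V v0 u) {a : X × Bool}
    (ha : edge u a ∈ V) : Rch V v0 (st u a) := by
  obtain ⟨g, hg, rfl⟩ := h
  refine ⟨g * lt a, PG_mul hg (PG_lt ha), ?_⟩
  rw [mul_inv_rev, mul_smul]
  rfl

theorem Rch_st' {V : Set (Ω × X)} {v0 u : Ω} {a : X × Bool} (h : Rch V v0 (st u a))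
    (ha : edge u a ∈ V) : Rch V v0 u := by
  have := Rch_st h (a := inv a) (by rw [edge_inv]; exact ha)
  rwa [st_st_inv] at this

theorem Rch_edge {V : Set (Ω × X)} {v0 u : Ω} (h : Rch V v0 u) {a : X × Bool}
    (ha : edge u a ∈ V) : Rch V v0 (edge u a).1 := by
  obtain ⟨x, b⟩ := a
  cases b
  · exact Rch_st h ha
  · exact h

theorem Rch_edge' {V : Set (Ω × X)} {v0 u : Ω} {a : X × Bool} (h : Rch V v0 (edge u a).1)
    (ha : edge u a ∈ V) : Rch V v0 u := by
  obtain ⟨x, b⟩ := a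
  cases b
  · exact Rch_st' h ha
  · exact h

theorem gam_mem' {V : Set (Ω × X)} {v0 : Ω} {t : Ω → FreeGroup X}
    (ht : ∀ u, Rch V v0 u → PG V v0 (t u) ∧ (t u)⁻¹ • v0 = u)
    {e : Ω × X} (he : e ∈ V) (hr : Rch V v0 e.1) : gam t e ∈ Lp V v0 := by
  obtain ⟨h1, h2⟩ := ht e.1 hr
  have h3 : PG V v0 (t e.1 * lt (e.2, true)) := by
    apply PG_mul h1
    rw [h2]
    exact PG_lt (by rw [edge_true]; exact he)
  have h4 : (t e.1 * lt (e.2, true))⁻¹ • v0 = st e.1 (e.2, true) := by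
    rw [mul_inv_rev, mul_smul, h2]; rfl
  obtain ⟨h5, h6⟩ := ht _ ⟨_, h3, h4⟩
  have h7 : PG V (st e.1 (e.2, true)) (t (st e.1 (e.2, true)))⁻¹ := by
    have := PG_inv h5
    rwa [h6] at this
  refine ⟨PG_mul h3 (by
    rw [show (t e.1 * FreeGroup.of e.2)⁻¹ • v0 = st e.1 (e.2, true) from h4]; exact h7), ?_⟩
  show (t e.1 * lt (e.2, true) * (t (st e.1 (e.2, true)))⁻¹) • v0 = v0
  rw [mul_smul, h6, ← h4, smul_inv_smul]

open Classical in
/-- the tautological cocycle -/
noncomputable def tau {V : Set (Ω × X)} {v0 : Ω} (t : Ω → FreeGroup X)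
    (ht : ∀ u, Rch V v0 u → PG V v0 (t u) ∧ (t u)⁻¹ • v0 = u) (e : Ω × X) : Lp V v0 :=
  if h : e ∈ V ∧ Rch V v0 e.1 then ⟨gam t e, gam_mem' ht h.1 h.2⟩ else 1

theorem tau_pos {V : Set (Ω × X)} {v0 : Ω} {t : Ω → FreeGroup X}
    (ht : ∀ u, Rch V v0 u → PG V v0 (t u) ∧ (t u)⁻¹ • v0 = u) {e : Ω × X} (he : e ∈ V)
    (hr : Rch V v0 e.1) : (tau t ht e : FreeGroup X) = gam t e := by
  have : tau t ht e = ⟨gam t e, gam_mem' ht he hr⟩ := dif_pos ⟨he, hr⟩
  rw [this]

theorem tau_neg {V : Set (Ω × X)} {v0 : Ω} {t : Ω → FreeGroup X}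
    (ht : ∀ u, Rch V v0 u → PG V v0 (t u) ∧ (t u)⁻¹ • v0 = u) {e : Ω × X}
    (hr : ¬ Rch V v0 e.1) : tau t ht e = 1 := dif_neg (fun h => hr h.2)

theorem hll_tau {V : Set (Ω × X)} {v0 : Ω} {t : Ω → FreeGroup X}
    (ht : ∀ u, Rch V v0 u → PG V v0 (t u) ∧ (t u)⁻¹ • v0 = u) {u : Ω} (hu : Rch V v0 u)
    {l : List (X × Bool)} (hl' : Pth V u l) :
    ((hll (tau t ht) u l : Lp V v0) : FreeGroup X) =
      t u * FreeGroup.mk l * (t ((FreeGroup.mk l)⁻¹ • u))⁻¹ := by
  induction l generalizing u with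
  | nil =>
    rw [mk_nil, inv_one, one_smul, mul_one, mul_inv_cancel]
    rfl
  | cons a l ih =>
    show ((Units.hl (tau t ht) u a * hll (tau t ht) (st u a) l : Lp V v0) : FreeGroup X) = _
    rw [Subgroup.coe_mul, ih (Rch_st hu hl'.1) hl'.2]
    have h1 : ((Units.hl (tau t ht) u a : Lp V v0) : FreeGroup X) = t u * lt a * (t (st u a))⁻¹ := by
      rw [gam_lt]
      unfold Units.hl
      split_ifs
      · exact tau_pos ht hl'.1 (Rch_edge hu hl'.1)
      · rw [Subgroup.coe_inv, tau_pos ht hl'.1 (Rch_edge hu hl'.1)]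
    rw [h1, mk_cons, mul_inv_rev, mul_smul]
    show _ = t u * (lt a * FreeGroup.mk l) * (t ((FreeGroup.mk l)⁻¹ • ((lt a)⁻¹ • u)))⁻¹
    show (t u * lt a * (t (st u a))⁻¹) *
      (t (st u a) * FreeGroup.mk l * (t ((FreeGroup.mk l)⁻¹ • ((lt a)⁻¹ • u)))⁻¹) = _
    group

theorem hol_tau {V : Set (Ω × X)} {v0 : Ω} {t : Ω → FreeGroup X}
    (ht : ∀ u, Rch V v0 u → PG V v0 (t u) ∧ (t u)⁻¹ • v0 = u) {u : Ω} (hu : Rch V v0 u)
    {g : FreeGroup X} (hg : PG V u g) :
    ((hol (tau t ht) u g : Lp V v0) : FreeGroup X) = t u * g * (t (g⁻¹ • u))⁻¹ := by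
  obtain ⟨l, rfl, hl'⟩ := hg
  exact hll_tau ht hu hl'

theorem Lp_fp {V : Set (Ω × X)} (hVf : V.Finite) (v0 : Ω) :
    Group.IsFinitelyPresented (Lp V v0) := by
  classical
  obtain ⟨t, ht1, ht⟩ := exists_tree (V := V) (v0 := v0)
  have ht' : ∀ u, Rch V v0 u → PG V v0 (t u) ∧ (t u)⁻¹ • v0 = u := ht
  have : Finite V := hVf
  let γ : FreeGroup V →* Lp V v0 := FreeGroup.lift (fun e => tau t ht' e.1)
  let φ : Ω × X → FreeGroup V := fun e => if h : e ∈ V then FreeGroup.of ⟨e, h⟩ else 1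
  have hγφ : ∀ e, γ (φ e) = tau t ht' e := by
    intro e
    by_cases h : e ∈ V
    · have h1 : φ e = FreeGroup.of ⟨e, h⟩ := dif_pos h
      rw [h1]
      exact FreeGroup.lift_apply_of
    · have h1 : φ e = 1 := dif_neg h
      rw [h1, map_one]
      have h2 : tau t ht' e = 1 := dif_neg (fun h' : e ∈ V ∧ Rch V v0 e.1 => h h'.1)
      exact h2.symm
  let χ : Lp V v0 →* FreeGroup V :=
    { toFun := fun g => hol φ v0 g.1
      map_one' := rfl
      map_mul' := by
        intro g h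
        show hol φ v0 (g.1 * h.1) = _
        rw [hol_mul, inv_smul_eq_iff.2 g.2.2.symm] }
  refine fp_retract γ χ ?_
  rintro ⟨g, ⟨l, rfl, hl'⟩, hg⟩
  apply Subtype.ext
  show ((γ (hll φ v0 l) : Lp V v0) : FreeGroup X) = FreeGroup.mk l
  rw [← hll_map]
  have h1 : (fun e => γ (φ e)) = tau t ht' := funext hγφ
  rw [h1, hll_tau ht' (Rch_base V v0) hl', inv_smul_eq_iff.2 hg.symm, ht1, one_mul, inv_one,
    mul_one]

end

section main
variable {X : Type} {Ω : Type*} [MulAction (FreeGroup X) Ω] {w : Wd X}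
variable [DecidableEq Ω] [DecidableEq X]

/-- extension of cocycles over collapses -/
theorem extend {n : ℕ} (hn : 0 < n) {𝔽 : Set Ω} {Δ0 : Finset (Ω × X)} {Am : Finset Ω}
    (hAm : Cl w n Am) (hAi : Irr w Am Δ0)
    (hmax : ∀ A : Finset Ω, (A : Set Ω) ⊆ 𝔽 → Cl w n A → Irr w A Δ0 → A ⊆ Am)
    {G : Type} [Group G] (φ : Ω × X → G) (hφ : ∀ u ∈ Am, hol φ u (wv w (w.L * n)) = 1) :
    ∀ (N : ℕ) (A : Finset Ω), A.card = N → (A : Set Ω) ⊆ 𝔽 → Cl w n A → Am ⊆ A →
      ∃ φ' : Ω × X → G, (∀ e, e ∈ Δ0 ∨ e ∈ cov w Am → φ' e = φ e) ∧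
        ∀ u ∈ A, hol φ' u (wv w (w.L * n)) = 1 := by
  intro N
  induction N using Nat.strong_induction_on with
  | _ N ih =>
    intro A hN hA𝔽 hA hAmA
    by_cases hi : Irr w A Δ0
    · have : A = Am := Finset.Subset.antisymm (hmax A hA𝔽 hA hi) hAmA
      exact ⟨φ, fun _ _ => rfl, by rw [this]; exact hφ⟩
    · unfold Irr at hi
      push Not at hi
      obtain ⟨f, hf, hfΔ, hf'⟩ := hi
      have hu : ∀ g ∈ fl w A, ed w g = ed w f → g = f := by
        intro g hg hg'
        by_contra hne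
        exact hf' g hg hne hg'
      obtain ⟨B, hBA, hBne, hB, hfB, hB', hc⟩ := remove_edge hn hA hf hu
      have hfA : f ∉ fl w Am := by
        intro hfA
        obtain ⟨g, hg, hg1, hg2⟩ := hAi f hfA hfΔ
        exact hf' g (fl_mono hAmA hg) hg1 hg2
      have hAB : Am ⊆ B := hB' Am hAmA hAm hfA
      have hcard : B.card < N := by
        rw [← hN]
        exact Finset.card_lt_card (lt_of_le_of_ne hBA hBne)
      obtain ⟨ψ, hψ1, hψ2⟩ := ih _ hcard B rfl
        ((Finset.coe_subset.2 hBA).trans hA𝔽) hB hAB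
      obtain ⟨c, hc⟩ := hc G ψ
      refine ⟨Function.update ψ (ed w f) c, ?_, ?_⟩
      · intro e he
        rw [Function.update_of_ne]
        · exact hψ1 e he
        · rintro rfl
          rcases he with he | he
          · exact hfΔ he
          · exact hfB (Finset.image_subset_image (fl_mono hAB) he)
      · intro u hu'
        by_cases huB : u ∈ B
        · rw [hol_update hB hfB ψ c huB]
          exact hψ2 u huB
        · exact hc u hu' huB

omit [DecidableEq X] in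
theorem fl_union (A B : Finset Ω) : fl w (A ∪ B) = fl w A ∪ fl w B := by
  ext f
  rw [Finset.mem_union, mem_fl, mem_fl, mem_fl]
  constructor
  · rintro ⟨v, hv, h⟩
    rcases Finset.mem_union.1 hv with hv | hv
    · exact Or.inl ⟨v, hv, h⟩
    · exact Or.inr ⟨v, hv, h⟩
  · rintro (⟨v, hv, h⟩ | ⟨v, hv, h⟩)
    · exact ⟨v, Finset.mem_union_left _ hv, h⟩
    · exact ⟨v, Finset.mem_union_right _ hv, h⟩

omit [DecidableEq Ω] [DecidableEq X] in
/-- The general finiteness theorem. -/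
theorem fp_main {n : ℕ} (hn : 2 ≤ n) (s : Stk w)
    (hmax : ∀ i, s.r i ≤ s.r 0) {v0 : Ω} {𝔽 : Set Ω}
    (h𝔽 : ∀ v ∈ 𝔽, sig w v ∈ 𝔽 ∧ (sig w)^[n] v = v)
    (htr : ∀ v ∈ 𝔽, ∃ g : FreeGroup X, g⁻¹ • v0 = v) {Δ0 : Finset (Ω × X)}
    (hΔ : Conn (Δ0 : Set (Ω × X)) v0)
    (hgen : MulAction.stabilizer (FreeGroup X) v0 ≤
      Subgroup.closure ((Lp (Δ0 : Set (Ω × X)) v0 : Set (FreeGroup X)) ∪
        lolI w n (bas 𝔽 v0)))
    {U : Type*} [Group U] (π : MulAction.stabilizer (FreeGroup X) v0 →* U)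
    (hπ : Function.Surjective π)
    (hker : ∀ g, π g = 1 ↔ (g : FreeGroup X) ∈ Subgroup.closure (lolI w n (bas 𝔽 v0))) :
    Group.IsFinitelyPresented U := by
  classical
  have hn0 : 0 < n := by omega
  obtain ⟨p, hp, hpn⟩ := Nat.exists_prime_and_dvd (show n ≠ 1 by omega)
  have : Fact p.Prime := ⟨hp⟩
  have hnk : (n : ZMod p) = 0 := (ZMod.natCast_eq_zero_iff n p).2 hpn
  -- the maximal irreducible set
  have hex : ∃ m, ∃ A : Finset Ω, A.card = m ∧ (A : Set Ω) ⊆ 𝔽 ∧ Cl w n A ∧ Irr w A Δ0 := by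
    refine ⟨0, ∅, rfl, by simp, ⟨by simp, by simp⟩, ?_⟩
    intro f hf
    obtain ⟨v, hv, -⟩ := mem_fl.1 hf
    exact absurd hv (Finset.notMem_empty _)
  have hbd : ∀ m, (∃ A : Finset Ω, A.card = m ∧ (A : Set Ω) ⊆ 𝔽 ∧ Cl w n A ∧ Irr w A Δ0) →
      m ≤ n * (2 * Δ0.card) := by
    rintro m ⟨A, rfl, hA𝔽, hA, hirr⟩
    exact bound hn0 hnk s hmax h𝔽 htr hΔ hgen hA hA𝔽 hirr
  obtain ⟨m, ⟨Am, hAmc, hAm𝔽, hAm, hAmi⟩, hmmax⟩ :
      ∃ m, (∃ A : Finset Ω, A.card = m ∧ (A : Set Ω) ⊆ 𝔽 ∧ Cl w n A ∧ Irr w A Δ0) ∧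
        ∀ m', (∃ A : Finset Ω, A.card = m' ∧ (A : Set Ω) ⊆ 𝔽 ∧ Cl w n A ∧ Irr w A Δ0) →
          m' ≤ m := by
    obtain ⟨m0, hm0⟩ := hex
    let P : ℕ → Prop := fun m =>
      ∃ A : Finset Ω, A.card = m ∧ (A : Set Ω) ⊆ 𝔽 ∧ Cl w n A ∧ Irr w A Δ0
    refine ⟨Nat.findGreatest P (n * (2 * Δ0.card)), Nat.findGreatest_spec (P := P) (hbd m0 hm0) hm0, ?_⟩
    intro m' hm'
    exact Nat.le_findGreatest (hbd m' hm') hm'
  have hgreat : ∀ A : Finset Ω, (A : Set Ω) ⊆ 𝔽 → Cl w n A → Irr w A Δ0 → A ⊆ Am := by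
    intro A hA𝔽 hA hAi
    have h1 : Cl w n (Am ∪ A) := by
      refine ⟨?_, ?_⟩
      · intro v hv
        rcases Finset.mem_union.1 hv with hv | hv
        · exact Finset.mem_union_left _ (hAm.1 v hv)
        · exact Finset.mem_union_right _ (hA.1 v hv)
      · intro v hv
        rcases Finset.mem_union.1 hv with hv | hv
        · exact hAm.2 v hv
        · exact hA.2 v hv
    have h2 : Irr w (Am ∪ A) Δ0 := by
      intro f hf hfΔ
      rw [fl_union] at hf ⊢
      rcases Finset.mem_union.1 hf with hf | hf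
      · obtain ⟨g, hg, h⟩ := hAmi f hf hfΔ
        exact ⟨g, Finset.mem_union_left _ hg, h⟩
      · obtain ⟨g, hg, h⟩ := hAi f hf hfΔ
        exact ⟨g, Finset.mem_union_right _ hg, h⟩
    have h3 : ((Am ∪ A : Finset Ω) : Set Ω) ⊆ 𝔽 := by
      rw [Finset.coe_union]
      exact Set.union_subset hAm𝔽 hA𝔽
    have h4 := hmmax _ ⟨Am ∪ A, rfl, h3, h1, h2⟩
    rw [← hAmc] at h4
    have h5 : Am = Am ∪ A := Finset.eq_of_subset_of_card_le Finset.subset_union_left h4
    rw [h5]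
    exact Finset.subset_union_right
  -- the finite graph
  set V : Set (Ω × X) := (Δ0 : Set (Ω × X)) ∪ (cov w Am : Set (Ω × X)) with hVdef
  have hVf : V.Finite := Set.Finite.union Δ0.finite_toSet (Finset.finite_toSet _)
  have hfp := Lp_fp hVf v0
  obtain ⟨t, ht1, ht⟩ := exists_tree (V := V) (v0 := v0)
  have ht' : ∀ u, Rch V v0 u → PG V v0 (t u) ∧ (t u)⁻¹ • v0 = u := ht
  -- loops at vertices of `Am`
  have hloop : ∀ u ∈ Am, ∀ m, PG V u (wv w m) :=
    fun u hu m => PG_wv u m (fun t _ => Or.inr (cov_all hAm hu t))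
  have hfixu : ∀ u ∈ Am, (wv w (w.L * n))⁻¹ • u = u := by
    intro u hu
    have := hAm.2 u hu
    rw [sig_iter_smul, ← wv_mul] at this
    exact this
  have hrel : ∀ u, u ∈ Am ∧ Rch V v0 u → t u * wv w (w.L * n) * (t u)⁻¹ ∈ Lp V v0 := by
    rintro u ⟨hu, hr⟩
    obtain ⟨h1, h2⟩ := ht' u hr
    have h3 : PG V v0 (t u * wv w (w.L * n)) := by
      apply PG_mul h1
      rw [h2]
      exact hloop u hu _
    have h4 : (t u * wv w (w.L * n))⁻¹ • v0 = u := by
      rw [mul_inv_rev, mul_smul, h2, hfixu u hu]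
    refine ⟨PG_mul h3 ?_, ?_⟩
    · rw [h4]
      have := PG_inv h1
      rwa [h2] at this
    · show (t u * wv w (w.L * n) * (t u)⁻¹) • v0 = v0
      rw [mul_smul, h2]
      rw [inv_smul_eq_iff] at h4
      exact h4.symm
  let rels : Set (Lp V v0) :=
    {g | ∃ u, u ∈ Am ∧ Rch V v0 u ∧ (g : FreeGroup X) = t u * wv w (w.L * n) * (t u)⁻¹}
  have hrelsfin : rels.Finite := by
    have h1 : (Subtype.val '' rels).Finite := by
      apply Set.Finite.subset (Am.finite_toSet.image (fun u => t u * wv w (w.L * n) * (t u)⁻¹))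
      rintro _ ⟨g, ⟨u, hu, -, hg⟩, rfl⟩
      exact ⟨u, hu, hg.symm⟩
    exact Set.Finite.of_finite_image h1 Subtype.val_injective.injOn
  -- the homomorphism
  let ι : Lp V v0 →* MulAction.stabilizer (FreeGroup X) v0 :=
    Subgroup.inclusion (Lp_le_stab V v0)
  have hsurj : Function.Surjective (π.comp ι) := by
    intro y
    obtain ⟨g, rfl⟩ := hπ y
    have h1 : Subgroup.closure ((Lp (Δ0 : Set (Ω × X)) v0 : Set (FreeGroup X)) ∪
        lolI w n (bas 𝔽 v0)) ≤ ((π.comp ι).range.comap π).map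
          (MulAction.stabilizer (FreeGroup X) v0).subtype := by
      rw [Subgroup.closure_le]
      rintro g (hg | hg)
      · have h2 : g ∈ Lp V v0 := Lp_mono Set.subset_union_left v0 hg
        exact ⟨⟨g, hg.2⟩, ⟨⟨g, h2⟩, rfl⟩, rfl⟩
      · refine ⟨⟨g, lolI_stab h𝔽 hg⟩, ?_, rfl⟩
        show π ⟨g, lolI_stab h𝔽 hg⟩ ∈ (π.comp ι).range
        rw [(hker ⟨g, lolI_stab h𝔽 hg⟩).2 (Subgroup.subset_closure hg)]
        exact one_mem _
    obtain ⟨g', hg', he⟩ := h1 (hgen g.2)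
    have : g' = g := Subtype.ext he
    rw [← this]
    exact hg'
  refine Group.IsFinitelyPresented.of_surjective (π.comp ι) hsurj ⟨rels, hrelsfin, ?_⟩
  apply le_antisymm
  · apply Subgroup.normalClosure_le_normal
    rintro g ⟨u, hu, hr, hg⟩
    show π (ι g) = 1
    rw [hker]
    show (g : FreeGroup X) ∈ _
    rw [hg]
    apply Subgroup.subset_closure
    refine ⟨t u, ?_, rfl⟩
    show (t u)⁻¹ • v0 ∈ 𝔽
    rw [(ht' u hr).2]
    exact hAm𝔽 hu
  · intro g hg
    have h1 : (g : FreeGroup X) ∈ Subgroup.closure (lolI w n (bas 𝔽 v0)) :=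
      (hker (ι g)).1 hg
    -- finitely many lollipops
    have h1' : (g : FreeGroup X) ∈ Subgroup.closure (∅ ∪ lolI w n (bas 𝔽 v0)) := by
      rwa [Set.empty_union]
    obtain ⟨I, hIb, hIfin, hgI⟩ := mem_closure_finite _ _ _ h1'
    let A1 : Finset Ω :=
      (hIfin.toFinset ×ˢ Finset.range n).image (fun q => (sig w)^[q.2] (q.1⁻¹ • v0))
    have hA1cl : Cl w n A1 := by
      refine ⟨?_, ?_⟩
      · intro z hz
        obtain ⟨⟨p, s⟩, hps, rfl⟩ := Finset.mem_image.1 hz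
        obtain ⟨hp, hs⟩ := Finset.mem_product.1 hps
        have hp' : p ∈ I := hIfin.mem_toFinset.1 hp
        have hs' : s < n := Finset.mem_range.1 hs
        show sig w ((sig w)^[s] (p⁻¹ • v0)) ∈ A1
        rw [← Function.iterate_succ_apply' (sig w)]
        rcases Nat.lt_or_ge (s + 1) n with h | h
        · exact Finset.mem_image.2 ⟨(p, s + 1), Finset.mem_product.2
            ⟨hp, Finset.mem_range.2 h⟩, rfl⟩
        · have : s + 1 = n := by omega
          rw [Nat.succ_eq_add_one, this, (h𝔽 _ (hIb hp')).2]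
          exact Finset.mem_image.2 ⟨(p, 0), Finset.mem_product.2
            ⟨hp, Finset.mem_range.2 hn0⟩, rfl⟩
      · intro z hz
        obtain ⟨⟨p, s⟩, hps, rfl⟩ := Finset.mem_image.1 hz
        obtain ⟨hp, hs⟩ := Finset.mem_product.1 hps
        have hp' : p ∈ I := hIfin.mem_toFinset.1 hp
        show (sig w)^[n] ((sig w)^[s] (p⁻¹ • v0)) = (sig w)^[s] (p⁻¹ • v0)
        rw [← Function.iterate_add_apply, add_comm, Function.iterate_add_apply,
          (h𝔽 _ (hIb hp')).2]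
    have hiter𝔽 : ∀ s, ∀ v ∈ 𝔽, (sig w)^[s] v ∈ 𝔽 := by
      intro s
      induction s with
      | zero => intro v hv; exact hv
      | succ s ih =>
        intro v hv
        rw [Function.iterate_succ_apply']
        exact (h𝔽 _ (ih v hv)).1
    let A2 := Am ∪ A1
    have hA2 : Cl w n A2 := by
      refine ⟨?_, ?_⟩
      · intro z hz
        rcases Finset.mem_union.1 hz with hz | hz
        · exact Finset.mem_union_left _ (hAm.1 z hz)
        · exact Finset.mem_union_right _ (hA1cl.1 z hz)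
      · intro z hz
        rcases Finset.mem_union.1 hz with hz | hz
        · exact hAm.2 z hz
        · exact hA1cl.2 z hz
    have hA2𝔽 : (A2 : Set Ω) ⊆ 𝔽 := by
      intro z hz
      rcases Finset.mem_union.1 hz with hz | hz
      · exact hAm𝔽 hz
      · obtain ⟨⟨p, s⟩, hps, rfl⟩ := Finset.mem_image.1 hz
        exact hiter𝔽 s _ (hIb (hIfin.mem_toFinset.1 (Finset.mem_product.1 hps).1))
    -- the canonical cocycle
    let q : Lp V v0 →* (Lp V v0 ⧸ Subgroup.normalClosure rels) := QuotientGroup.mk' _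
    let φ0 : Ω × X → (Lp V v0 ⧸ Subgroup.normalClosure rels) := fun e => q (tau t ht' e)
    have hφ0 : ∀ u ∈ Am, hol φ0 u (wv w (w.L * n)) = 1 := by
      intro u hu
      by_cases hr : Rch V v0 u
      · obtain ⟨l, hl1, hl2⟩ := hloop u hu (w.L * n)
        rw [← hl1, hol_mk, hll_map]
        have h2 := hll_tau ht' hr hl2
        rw [hl1, hfixu u hu] at h2
        refine (QuotientGroup.eq_one_iff _).2 ?_
        exact Subgroup.subset_normalClosure ⟨u, hu, hr, h2⟩
      · -- all edges of the loop are unreachable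
        have h2 : ∀ m, ¬ Rch V v0 (vt w u m) := by
          intro m
          induction m with
          | zero => rw [vt_zero]; exact hr
          | succ m ih =>
            rw [vt_succ]
            intro h
            exact ih (Rch_st' h (Or.inr (cov_all hAm hu m)))
        have h3 : ∀ m, hol φ0 u (wv w m) = 1 := by
          intro m
          induction m with
          | zero => rfl
          | succ m ih =>
            rw [hol_wv_succ, ih, one_mul]
            have h4 : φ0 (edge (vt w u m) (w.ℓ m)) = 1 := by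
              have h5 : tau t ht' (edge (vt w u m) (w.ℓ m)) = 1 :=
                tau_neg ht' (fun h => h2 m (Rch_edge' h (Or.inr (cov_all hAm hu m))))
              show q _ = 1
              rw [h5, map_one]
            unfold Units.hl
            rw [h4]
            simp
        exact h3 _
    obtain ⟨φ, hφ1, hφ2⟩ := extend hn0 hAm hAmi hgreat φ0 hφ0 A2.card A2 rfl hA2𝔽 hA2
      Finset.subset_union_left
    have hgφ : (g : FreeGroup X) ∈ Units.hker φ v0 := by
      refine (Subgroup.closure_le (Units.hker φ v0)).2 ?_ hgI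
      rintro x (hx | ⟨p, hp, rfl⟩)
      · exact absurd hx (Set.notMem_empty _)
      · refine ⟨lolI_stab h𝔽 ⟨p, hIb hp, rfl⟩, ?_⟩
        show hol φ v0 (p * wv w (w.L * n) * p⁻¹) = 1
        rw [hol_conj φ v0 p _ (lolI_fix h𝔽 (hIb hp)), hφ2 (p⁻¹ • v0), mul_one, mul_inv_cancel]
        apply Finset.mem_union_right
        exact Finset.mem_image.2 ⟨(p, 0), Finset.mem_product.2
          ⟨hIfin.mem_toFinset.2 hp, Finset.mem_range.2 hn0⟩, rfl⟩
    have h5 : hol φ v0 (g : FreeGroup X) = hol φ0 v0 (g : FreeGroup X) :=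
      hol_congr (D := V) (fun e he => hφ1 e he) g.2.1
    have h6 : hol φ0 v0 (g : FreeGroup X) = 1 := by rw [← h5]; exact hgφ.2
    obtain ⟨⟨l, hl1, hl2⟩, hgs⟩ := g.2
    rw [← hl1, hol_mk, hll_map] at h6
    have h7 := hll_tau ht' (Rch_base V v0) hl2
    rw [hl1, inv_smul_eq_iff.2 hgs.symm, ht1, one_mul, inv_one, mul_one] at h7
    have h8 : hll (tau t ht') v0 l = g := Subtype.ext h7
    rw [h8] at h6
    exact (QuotientGroup.eq_one_iff _).1 h6

end main

end Pool.Agent.H355.Units
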