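import Pool.Agent.H355.Units.Fp
import Pool.Agent.H355.Units.Defs

set_option autoImplicit false

/-!
# Right units and units of `Inv⟨A ∣ R = 1⟩`
-/

namespace Pool.Agent.H355.Units

open Pool.H679R3.OR

variable {X : Type} (R : List (X × Bool))

/-- the class of a word -/
def cls (l : List (X × Bool)) : InvMon (FreeMonoid.ofList R) :=
  ((FreeMonoid.ofList l : FreeMonoid (X × Bool)) : (conGen (InvRel (FreeMonoid.ofList R))).Quotient)

theorem cls_nil : cls R [] = 1 := rfl

theorem cls_append (l l' : List (X × Bool)) : cls R (l ++ l') = cls R l * cls R l' := rfl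

theorem cls_surj (x : InvMon (FreeMonoid.ofList R)) : ∃ l, cls R l = x := by
  obtain ⟨l, rfl⟩ := Con.mk'_surjective x
  exact ⟨l.toList, rfl⟩

theorem cls_rel : cls R R = 1 :=
  (Con.eq _).2 (ConGen.Rel.of _ _ InvRel.rel)

theorem winv_ofList (l : List (X × Bool)) :
    winv (FreeMonoid.ofList l) = FreeMonoid.ofList (linv l) := rfl

theorem cls_reg (l : List (X × Bool)) : cls R l * cls R (linv l) * cls R l = cls R l := by
  have := (Con.eq (conGen (InvRel (FreeMonoid.ofList R)))).2
    (ConGen.Rel.of _ _ (InvRel.regular (R := FreeMonoid.ofList R) (FreeMonoid.ofList l)))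
  exact this

theorem cls_comm (l l' : List (X × Bool)) :
    cls R l * cls R (linv l) * (cls R l' * cls R (linv l')) =
      cls R l' * cls R (linv l') * (cls R l * cls R (linv l)) := by
  have := (Con.eq (conGen (InvRel (FreeMonoid.ofList R)))).2
    (ConGen.Rel.of _ _ (InvRel.commute (R := FreeMonoid.ofList R)
    (FreeMonoid.ofList l) (FreeMonoid.ofList l')))
  exact this

/-- the word represents a right unit -/
def RU (l : List (X × Bool)) : Prop := cls R l * cls R (linv l) = 1

variable {R}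

theorem RU_of {l : List (X × Bool)} {y : InvMon (FreeMonoid.ofList R)} (h : cls R l * y = 1) :
    RU R l := by
  unfold RU
  calc cls R l * cls R (linv l) = cls R l * cls R (linv l) * (cls R l * y) := by rw [h, mul_one]
    _ = (cls R l * cls R (linv l) * cls R l) * y := by simp only [mul_assoc]
    _ = 1 := by rw [cls_reg, h]

theorem RU_nil : RU R [] := by
  unfold RU
  rw [linv_nil, cls_nil, one_mul]

theorem RU_prefix {l l' : List (X × Bool)} (h : RU R (l ++ l')) : RU R l := by
  unfold RU at h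
  rw [cls_append, mul_assoc] at h
  exact RU_of h

theorem RU_append {l l' : List (X × Bool)} (h : RU R l) (h' : RU R l') : RU R (l ++ l') := by
  apply RU_of (y := cls R (linv l') * cls R (linv l))
  rw [cls_append]
  calc cls R l * cls R l' * (cls R (linv l') * cls R (linv l)) =
      cls R l * (cls R l' * cls R (linv l')) * cls R (linv l) := by simp only [mul_assoc]
    _ = 1 := by rw [show cls R l' * cls R (linv l') = 1 from h', mul_one]; exact h

theorem RU_congr {l l' : List (X × Bool)} (h : cls R l = cls R l') (hl : RU R l) : RU R l' := by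
  apply RU_of (y := cls R (linv l))
  rw [← h]; exact hl

theorem RU_cancel {l : List (X × Bool)} {a : X × Bool} (h : RU R (l ++ [a])) :
    cls R (l ++ [a] ++ [inv a]) = cls R l := by
  have h1 : cls R (l ++ [a]) * cls R (linv (l ++ [a])) = 1 := h
  have h2 := congrArg (fun x => x * cls R l) h1
  simp only [one_mul] at h2
  have h3 : linv (l ++ [a]) = [inv a] ++ linv l := by rw [linv_append]; rfl
  rw [h3, cls_append, cls_append] at h2
  have h4 := cls_comm R [a] (linv l)
  rw [linv_linv] at h4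
  have h5 : cls R (linv [a]) = cls R [inv a] := rfl
  rw [h5] at h4
  calc cls R (l ++ [a] ++ [inv a]) = cls R l * (cls R [a] * cls R [inv a]) := by
        rw [cls_append, cls_append, mul_assoc]
    _ = (cls R l * cls R (linv l) * cls R l) * (cls R [a] * cls R [inv a]) := by rw [cls_reg]
    _ = cls R l * (cls R (linv l) * cls R l * (cls R [a] * cls R [inv a])) := by
        simp only [mul_assoc]
    _ = cls R l * (cls R [a] * cls R [inv a] * (cls R (linv l) * cls R l)) := by rw [h4]
    _ = cls R l * cls R [a] * (cls R [inv a] * cls R (linv l)) * cls R l := by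
        simp only [mul_assoc]
    _ = cls R l := h2

theorem RU_step {l l' : List (X × Bool)} (hs : FreeGroup.Red.Step l l') (h : RU R l) :
    cls R l = cls R l' := by
  cases hs with
  | @not L1 L2 x b =>
    have e : L1 ++ (x, b) :: (x, !b) :: L2 = (L1 ++ [(x, b)] ++ [inv (x, b)]) ++ L2 := by
      simp [inv]
    rw [e] at h ⊢
    have h1 : RU R (L1 ++ [(x, b)]) := RU_prefix (RU_prefix h)
    rw [cls_append, RU_cancel h1, cls_append]

theorem RU_red {l l' : List (X × Bool)} (hs : FreeGroup.Red l l') (h : RU R l) :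
    cls R l = cls R l' := by
  induction hs with
  | refl => rfl
  | tail _ hstep ih => rw [ih, RU_step hstep (RU_congr ih h)]

theorem RU_unique {l l' : List (X × Bool)} (h : RU R l) (h' : RU R l')
    (he : FreeGroup.mk l = FreeGroup.mk l') : cls R l = cls R l' := by
  obtain ⟨c, h1, h2⟩ := FreeGroup.Red.exact.1 he
  rw [RU_red h1 h, RU_red h2 h']

/-! ### action on graphs -/

section act
variable {Ω : Type*} [MulAction (FreeGroup X) Ω] {S : Set (Ω × X)} {P : Set Ω}

theorem Pth_end (hP : ∀ x ∈ P, ∀ a, edge x a ∈ S → st x a ∈ P) {x : Ω} (hx : x ∈ P)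
    {l : List (X × Bool)} (h : Pth S x l) : (FreeGroup.mk l)⁻¹ • x ∈ P := by
  induction l generalizing x with
  | nil => rw [mk_nil, inv_one, one_smul]; exact hx
  | cons a l ih =>
    rw [mk_cons, mul_inv_rev, mul_smul]
    exact ih (hP x hx a h.1) h.2

/-- the congruence of a graph -/
def gcon (hP : ∀ x ∈ P, ∀ a, edge x a ∈ S → st x a ∈ P) : Con (FreeMonoid (X × Bool)) where
  r u v := ∀ x ∈ P, (Pth S x u.toList ↔ Pth S x v.toList) ∧
    (Pth S x u.toList → (FreeGroup.mk u.toList)⁻¹ • x = (FreeGroup.mk v.toList)⁻¹ • x)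
  iseqv := by
    refine ⟨fun u x _ => ⟨Iff.rfl, fun _ => rfl⟩, ?_, ?_⟩
    · intro u v h x hx
      exact ⟨(h x hx).1.symm, fun h' => ((h x hx).2 ((h x hx).1.2 h')).symm⟩
    · intro u v t h h' x hx
      exact ⟨(h x hx).1.trans (h' x hx).1,
        fun h1 => ((h x hx).2 h1).trans ((h' x hx).2 ((h x hx).1.1 h1))⟩
  mul' := by
    intro u v u' v' h h' x hx
    show (Pth S x (u.toList ++ u'.toList) ↔ Pth S x (v.toList ++ v'.toList)) ∧
      (Pth S x (u.toList ++ u'.toList) → (FreeGroup.mk (u.toList ++ u'.toList))⁻¹ • x =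
        (FreeGroup.mk (v.toList ++ v'.toList))⁻¹ • x)
    rw [Pth_append, Pth_append, mk_append, mk_append, mul_inv_rev, mul_inv_rev, mul_smul, mul_smul]
    constructor
    · constructor
      · rintro ⟨h1, h2⟩
        have e := (h x hx).2 h1
        refine ⟨(h x hx).1.1 h1, ?_⟩
        rw [← e]
        exact (h' _ (Pth_end hP hx h1)).1.1 h2
      · rintro ⟨h1, h2⟩
        have h3 := (h x hx).1.2 h1
        have e := (h x hx).2 h3
        refine ⟨h3, ?_⟩
        rw [← e] at h2
        exact (h' _ (Pth_end hP hx h3)).1.2 h2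
    · rintro ⟨h1, h2⟩
      have e := (h x hx).2 h1
      rw [← e]
      exact (h' _ (Pth_end hP hx h1)).2 h2

theorem act (hP : ∀ x ∈ P, ∀ a, edge x a ∈ S → st x a ∈ P)
    (hR : ∀ x ∈ P, Pth S x R ∧ (FreeGroup.mk R)⁻¹ • x = x) {l l' : List (X × Bool)}
    (h : cls R l = cls R l') {x : Ω} (hx : x ∈ P) :
    (Pth S x l ↔ Pth S x l') ∧
      (Pth S x l → (FreeGroup.mk l)⁻¹ • x = (FreeGroup.mk l')⁻¹ • x) := by
  have h1 : conGen (InvRel (FreeMonoid.ofList R)) (FreeMonoid.ofList l) (FreeMonoid.ofList l') :=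
    (Con.eq _).1 h
  have hinvol : ∀ (u : List (X × Bool)) (y : Ω), Pth S y (u ++ linv u) ↔ Pth S y u := by
    intro u y
    rw [Pth_append]
    exact ⟨fun h => h.1, fun h => ⟨h, Pth_linv h⟩⟩
  have hmk : ∀ u : List (X × Bool), FreeGroup.mk (u ++ linv u) = 1 := by
    intro u
    rw [mk_append, mk_linv, mul_inv_cancel]
  have h2 : conGen (InvRel (FreeMonoid.ofList R)) ≤ gcon hP := by
    rw [Con.conGen_le]
    intro u v huv y hy
    cases huv with
    | regular =>
      show (Pth S y (v.toList ++ linv v.toList ++ v.toList) ↔ Pth S y v.toList) ∧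
        (Pth S y (v.toList ++ linv v.toList ++ v.toList) →
          (FreeGroup.mk (v.toList ++ linv v.toList ++ v.toList))⁻¹ • y =
            (FreeGroup.mk v.toList)⁻¹ • y)
      rw [Pth_append, hinvol, mk_append (v.toList ++ linv v.toList), hmk, one_mul, inv_one,
        one_smul]
      exact ⟨⟨fun h => h.1, fun h => ⟨h, h⟩⟩, fun _ => rfl⟩
    | commute u v =>
      show (Pth S y (u.toList ++ linv u.toList ++ (v.toList ++ linv v.toList)) ↔
          Pth S y (v.toList ++ linv v.toList ++ (u.toList ++ linv u.toList))) ∧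
        (Pth S y (u.toList ++ linv u.toList ++ (v.toList ++ linv v.toList)) →
          (FreeGroup.mk (u.toList ++ linv u.toList ++ (v.toList ++ linv v.toList)))⁻¹ • y =
            (FreeGroup.mk (v.toList ++ linv v.toList ++ (u.toList ++ linv u.toList)))⁻¹ • y)
      have hpair : ∀ a b : List (X × Bool), Pth S y (a ++ linv a ++ (b ++ linv b)) ↔
          Pth S y a ∧ Pth S y b := by
        intro a b
        rw [Pth_append, hinvol, hmk, inv_one, one_smul, hinvol]
      rw [hpair, hpair, mk_append (u.toList ++ linv u.toList), hmk, hmk,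
        mk_append (v.toList ++ linv v.toList), hmk, hmk]
      exact ⟨and_comm, fun _ => rfl⟩
    | rel =>
      show (Pth S y R ↔ Pth S y []) ∧ (Pth S y R → (FreeGroup.mk R)⁻¹ • y =
        (FreeGroup.mk [])⁻¹ • y)
      refine ⟨⟨fun _ => trivial, fun _ => (hR y hy).1⟩, fun _ => ?_⟩
      rw [(hR y hy).2, mk_nil, inv_one, one_smul]
  exact h2 h1 x hx

end act

/-! ### the subgroups `N` and `H` -/

variable (R)

/-- loops at `1` in the Schützenberger graph of `1` -/
def NN : Subgroup (FreeGroup X) where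
  carrier := {g | ∃ l, FreeGroup.mk l = g ∧ cls R l = 1}
  one_mem' := ⟨[], rfl, rfl⟩
  mul_mem' := by
    rintro _ _ ⟨l, rfl, hl⟩ ⟨l', rfl, hl'⟩
    exact ⟨l ++ l', mk_append _ _, by rw [cls_append, hl, hl', one_mul]⟩
  inv_mem' := by
    rintro _ ⟨l, rfl, hl⟩
    refine ⟨linv l, mk_linv l, ?_⟩
    have := cls_reg R l
    rw [hl, one_mul, mul_one] at this
    exact this

/-- words representing units -/
def HH : Subgroup (FreeGroup X) where
  carrier := {g | ∃ l, FreeGroup.mk l = g ∧ IsUnit (cls R l)}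
  one_mem' := ⟨[], rfl, isUnit_one⟩
  mul_mem' := by
    rintro _ _ ⟨l, rfl, hl⟩ ⟨l', rfl, hl'⟩
    exact ⟨l ++ l', mk_append _ _, by rw [cls_append]; exact hl.mul hl'⟩
  inv_mem' := by
    rintro _ ⟨l, rfl, hl⟩
    refine ⟨linv l, mk_linv l, ?_⟩
    obtain ⟨u, hu⟩ := hl
    have h1 : RU R l := by
      apply RU_of (y := ((u⁻¹ : (InvMon (FreeMonoid.ofList R))ˣ) : InvMon (FreeMonoid.ofList R)))
      rw [← hu, Units.mul_inv]
    have h2 : cls R (linv l) = ((u⁻¹ : (InvMon (FreeMonoid.ofList R))ˣ) :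
        InvMon (FreeMonoid.ofList R)) := by
      have h3 : (u : InvMon (FreeMonoid.ofList R)) * cls R (linv l) = 1 := by rw [hu]; exact h1
      exact (Units.inv_eq_of_mul_eq_one_right h3).symm
    rw [h2]
    exact Units.isUnit _

variable {R}

theorem RU_isUnit {l : List (X × Bool)} (h : IsUnit (cls R l)) : RU R l := by
  obtain ⟨u, hu⟩ := h
  apply RU_of (y := ((u⁻¹ : (InvMon (FreeMonoid.ofList R))ˣ) : InvMon (FreeMonoid.ofList R)))
  rw [← hu, Units.mul_inv]

theorem coset_smul (K : Subgroup (FreeGroup X)) (g : FreeGroup X) :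
    g • ((1 : FreeGroup X) : FreeGroup X ⧸ K) = ((1 : FreeGroup X) : FreeGroup X ⧸ K) ↔ g ∈ K := by
  have := MulAction.stabilizer_quotient K
  constructor
  · intro h
    have h2 : g ∈ MulAction.stabilizer (FreeGroup X) ((1 : FreeGroup X) : FreeGroup X ⧸ K) := h
    rwa [this] at h2
  · intro h
    rw [← this] at h
    exact h

theorem coset_eq (K : Subgroup (FreeGroup X)) (g h : FreeGroup X) :
    g⁻¹ • ((1 : FreeGroup X) : FreeGroup X ⧸ K) = h⁻¹ • ((1 : FreeGroup X) : FreeGroup X ⧸ K) ↔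
      g * h⁻¹ ∈ K := by
  rw [← coset_smul, mul_smul]
  constructor
  · intro h'; rw [← h', smul_inv_smul]
  · intro h'
    rw [inv_smul_eq_iff]; exact h'.symm

/-- The kernel is generated by the lollipops. -/
theorem NN_le : NN R ≤ Subgroup.closure
    {g | ∃ l, RU R l ∧ g = FreeGroup.mk l * FreeGroup.mk R * (FreeGroup.mk l)⁻¹} := by
  rintro _ ⟨l, rfl, hl⟩
  set K := Subgroup.closure
    {g | ∃ l, RU R l ∧ g = FreeGroup.mk l * FreeGroup.mk R * (FreeGroup.mk l)⁻¹} with hK
  let x0 : FreeGroup X ⧸ K := ((1 : FreeGroup X) : FreeGroup X ⧸ K)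
  let P : Set (FreeGroup X ⧸ K) := {y | ∃ l, RU R l ∧ y = (FreeGroup.mk l)⁻¹ • x0}
  let S : Set ((FreeGroup X ⧸ K) × X) :=
    {e | ∃ l a, RU R (l ++ [a]) ∧ e = edge ((FreeGroup.mk l)⁻¹ • x0) a}
  have hP : ∀ x ∈ P, ∀ a, edge x a ∈ S → st x a ∈ P := by
    rintro x - a ⟨l, b, hlb, he⟩
    rcases edge_eq he with ⟨h1, h2⟩ | ⟨h1, h2⟩
    · refine ⟨l ++ [b], hlb, ?_⟩
      rw [mk_append, mk_singleton, mul_inv_rev, mul_smul, h1, h2]
      rfl
    · exact ⟨l, RU_prefix hlb, h1.symm⟩
  have hR : ∀ x ∈ P, Pth S x R ∧ (FreeGroup.mk R)⁻¹ • x = x := by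
    rintro x ⟨l, hl, rfl⟩
    have hlR : RU R (l ++ R) := by
      apply RU_congr _ hl
      rw [cls_append, cls_rel, mul_one]
    constructor
    · have : ∀ (R2 q : List (X × Bool)), RU R (l ++ q ++ R2) →
          Pth S ((FreeGroup.mk (l ++ q))⁻¹ • x0) R2 := by
        intro R2
        induction R2 with
        | nil => intro _ _; trivial
        | cons a R2 ih =>
          intro q hq
          have e : l ++ q ++ a :: R2 = (l ++ q ++ [a]) ++ R2 := by simp
          have e' : l ++ q ++ a :: R2 = (l ++ (q ++ [a])) ++ R2 := by simp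
          refine ⟨⟨l ++ q, a, RU_prefix (e ▸ hq), rfl⟩, ?_⟩
          have h1 := ih (q ++ [a]) (e' ▸ hq)
          have h2 : (FreeGroup.mk (l ++ (q ++ [a])))⁻¹ • x0 =
              st ((FreeGroup.mk (l ++ q))⁻¹ • x0) a := by
            rw [← List.append_assoc, mk_append, mk_singleton, mul_inv_rev, mul_smul]
            rfl
          rw [h2] at h1
          exact h1
      have h1 := this R [] (by rw [List.append_nil]; exact hlR)
      rw [List.append_nil] at h1
      exact h1
    · rw [← mul_smul, ← mul_inv_rev]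
      refine (coset_eq K _ _).2 ?_
      exact Subgroup.subset_closure ⟨l, hl, rfl⟩
  have hx0 : x0 ∈ P := ⟨[], RU_nil, by rw [mk_nil, inv_one, one_smul]⟩
  have h1 := act hP hR (l := []) (l' := l) (by rw [cls_nil, hl]) hx0
  have h2 := h1.2 trivial
  rw [mk_nil, inv_one, one_smul] at h2
  rw [← coset_smul]
  exact (inv_smul_eq_iff.1 h2.symm).symm

theorem le_NN : Subgroup.closure
    {g | ∃ l, RU R l ∧ g = FreeGroup.mk l * FreeGroup.mk R * (FreeGroup.mk l)⁻¹} ≤ NN R := by
  rw [Subgroup.closure_le]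
  rintro _ ⟨l, hl, rfl⟩
  refine ⟨l ++ R ++ linv l, ?_, ?_⟩
  · rw [mk_append, mk_append, mk_linv]
  · rw [cls_append, cls_append, cls_rel, mul_one]
    exact hl

theorem NN_eq : NN R = Subgroup.closure
    {g | ∃ l, RU R l ∧ g = FreeGroup.mk l * FreeGroup.mk R * (FreeGroup.mk l)⁻¹} :=
  le_antisymm NN_le le_NN

/-! ### generation by prefixes -/

/-- the submonoid generated by the prefixes of the relator -/
def Pf (R : List (X × Bool)) : Submonoid (InvMon (FreeMonoid.ofList R)) :=
  Submonoid.closure {x | ∃ q, q <+: R ∧ x = cls R q}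

theorem Pf_rinv {x : InvMon (FreeMonoid.ofList R)} (hx : x ∈ Pf R) : ∃ y, x * y = 1 := by
  induction hx using Submonoid.closure_induction with
  | mem x hx =>
    obtain ⟨q, ⟨t, ht⟩, rfl⟩ := hx
    refine ⟨cls R t, ?_⟩
    rw [← cls_append, ht, cls_rel]
  | one => exact ⟨1, one_mul _⟩
  | mul x y _ _ hx hy =>
    obtain ⟨x', hx⟩ := hx
    obtain ⟨y', hy⟩ := hy
    refine ⟨y' * x', ?_⟩
    calc x * y * (y' * x') = x * (y * y') * x' := by simp only [mul_assoc]
      _ = 1 := by rw [hy, mul_one, hx]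

theorem RU_Pf {l : List (X × Bool)} (h : cls R l ∈ Pf R) : RU R l := by
  obtain ⟨y, hy⟩ := Pf_rinv h
  exact RU_of hy

theorem mem_Pf {l : List (X × Bool)} (hl : RU R l) : cls R l ∈ Pf R := by
  let K := NN R
  let x0 : FreeGroup X ⧸ K := ((1 : FreeGroup X) : FreeGroup X ⧸ K)
  let P : Set (FreeGroup X ⧸ K) := {y | ∃ l, cls R l ∈ Pf R ∧ y = (FreeGroup.mk l)⁻¹ • x0}
  let S : Set ((FreeGroup X ⧸ K) × X) :=
    {e | ∃ l q a, cls R l ∈ Pf R ∧ (q ++ [a]) <+: R ∧ e = edge ((FreeGroup.mk (l ++ q))⁻¹ • x0) a}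
  have hP : ∀ x ∈ P, ∀ a, edge x a ∈ S → st x a ∈ P := by
    rintro x - a ⟨l, q, b, hl, hq, he⟩
    rcases edge_eq he with ⟨h1, h2⟩ | ⟨h1, h2⟩
    · refine ⟨l ++ (q ++ [b]), ?_, ?_⟩
      · rw [cls_append]
        exact mul_mem hl (Submonoid.subset_closure ⟨_, hq, rfl⟩)
      · rw [← List.append_assoc, mk_append (l ++ q), mk_singleton, mul_inv_rev, mul_smul, h1, h2]
        rfl
    · refine ⟨l ++ q, ?_, h1.symm⟩
      rw [cls_append]
      exact mul_mem hl (Submonoid.subset_closure ⟨_, (List.prefix_append q [b]).trans hq, rfl⟩)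
  have hR : ∀ x ∈ P, Pth S x R ∧ (FreeGroup.mk R)⁻¹ • x = x := by
    rintro x ⟨l, hl, rfl⟩
    constructor
    · have : ∀ (R2 q : List (X × Bool)), q ++ R2 = R →
          Pth S ((FreeGroup.mk (l ++ q))⁻¹ • x0) R2 := by
        intro R2
        induction R2 with
        | nil => intro _ _; trivial
        | cons a R2 ih =>
          intro q hq
          refine ⟨⟨l, q, a, hl, ⟨R2, by rw [← hq]; simp⟩, rfl⟩, ?_⟩
          have h1 := ih (q ++ [a]) (by rw [← hq]; simp)
          have h2 : (FreeGroup.mk (l ++ (q ++ [a])))⁻¹ • x0 =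
              st ((FreeGroup.mk (l ++ q))⁻¹ • x0) a := by
            rw [← List.append_assoc, mk_append, mk_singleton, mul_inv_rev, mul_smul]
            rfl
          rw [h2] at h1
          exact h1
      have h1 := this R [] rfl
      rw [List.append_nil] at h1
      exact h1
    · rw [← mul_smul, ← mul_inv_rev]
      refine (coset_eq K _ _).2 ?_
      exact le_NN (Subgroup.subset_closure ⟨l, RU_Pf hl, rfl⟩)
  have hx0 : x0 ∈ P := ⟨[], by rw [cls_nil]; exact one_mem _, by rw [mk_nil, inv_one, one_smul]⟩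
  have h1 := act hP hR (l := []) (l' := l ++ linv l) (by rw [cls_nil, cls_append]; exact hl.symm)
    hx0
  have h2 : Pth S x0 l := (Pth_append.1 (h1.1.1 trivial)).1
  obtain ⟨l', hl', he⟩ := Pth_end hP hx0 h2
  obtain ⟨l2, h3, h4⟩ := (coset_eq K _ _).1 he
  have h5 : cls R (l2 ++ l') = cls R l' := by rw [cls_append, h4, one_mul]
  have h6 : RU R (l2 ++ l') := RU_congr h5.symm (RU_Pf hl')
  have h7 : FreeGroup.mk l = FreeGroup.mk (l2 ++ l') := by
    rw [mk_append, h3, inv_mul_cancel_right]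
  rw [RU_unique hl h6 h7, h5]
  exact hl'

end Pool.Agent.H355.Units
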