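import Pool.Agent.H355.Units.Bound

set_option autoImplicit false

/-!
# Irreducible finite sets of relator loops are bounded
-/

namespace Pool.Agent.H355.Units

open Pool.H679R3.OR

/-- only finitely many generators are needed -/
theorem mem_closure_finite {G ι : Type*} [Group G] (B : Set G) (f : ι → G) (T : Set ι) {g : G}
    (hg : g ∈ Subgroup.closure (B ∪ f '' T)) :
    ∃ I ⊆ T, I.Finite ∧ g ∈ Subgroup.closure (B ∪ f '' I) := by
  induction hg using Subgroup.closure_induction with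
  | mem x hx =>
    rcases hx with hx | ⟨i, hi, rfl⟩
    · exact ⟨∅, Set.empty_subset _, Set.finite_empty, Subgroup.subset_closure (Or.inl hx)⟩
    · exact ⟨{i}, Set.singleton_subset_iff.2 hi, Set.finite_singleton i,
        Subgroup.subset_closure (Or.inr ⟨i, rfl, rfl⟩)⟩
  | one => exact ⟨∅, Set.empty_subset _, Set.finite_empty, one_mem _⟩
  | mul x y _ _ hx hy =>
    obtain ⟨I, hI, hI', hx⟩ := hx
    obtain ⟨J, hJ, hJ', hy⟩ := hy
    refine ⟨I ∪ J, Set.union_subset hI hJ, hI'.union hJ', mul_mem ?_ ?_⟩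
    · exact Subgroup.closure_mono (Set.union_subset_union_right _
        (Set.image_mono Set.subset_union_left)) hx
    · exact Subgroup.closure_mono (Set.union_subset_union_right _
        (Set.image_mono Set.subset_union_right)) hy
  | inv x _ hx =>
    obtain ⟨I, hI, hI', hx⟩ := hx
    exact ⟨I, hI, hI', inv_mem hx⟩

section
variable {X : Type} {Ω : Type*} [MulAction (FreeGroup X) Ω] {w : Wd X}

/-- lollipops -/
def lolI (w : Wd X) (n : ℕ) (I : Set (FreeGroup X)) : Set (FreeGroup X) :=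
  (fun p => p * wv w (w.L * n) * p⁻¹) '' I

/-- the lollipop bases -/
def bas (𝔽 : Set Ω) (v0 : Ω) : Set (FreeGroup X) := {p | p⁻¹ • v0 ∈ 𝔽}

theorem lolI_fix {n : ℕ} {𝔽 : Set Ω} (h𝔽 : ∀ v ∈ 𝔽, sig w v ∈ 𝔽 ∧ (sig w)^[n] v = v) {v0 : Ω}
    {p : FreeGroup X} (hp : p ∈ bas 𝔽 v0) :
    wv w (w.L * n) • (p⁻¹ • v0) = p⁻¹ • v0 := by
  have h := (h𝔽 _ hp).2
  rw [sig_iter_smul, ← wv_mul, inv_smul_eq_iff] at h
  exact h.symm

theorem lolI_stab {n : ℕ} {𝔽 : Set Ω} (h𝔽 : ∀ v ∈ 𝔽, sig w v ∈ 𝔽 ∧ (sig w)^[n] v = v) {v0 : Ω}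
    {g : FreeGroup X} (hg : g ∈ lolI w n (bas 𝔽 v0)) : g • v0 = v0 := by
  obtain ⟨p, hp, rfl⟩ := hg
  show (p * wv w (w.L * n) * p⁻¹) • v0 = v0
  rw [mul_smul, mul_smul, lolI_fix h𝔽 hp, smul_inv_smul]

variable [DecidableEq Ω] [DecidableEq X]

theorem bound {k : Type} [Field k] {n : ℕ} (hn : 0 < n) (hnk : (n : k) = 0) (s : Stk w)
    (hmax : ∀ i, s.r i ≤ s.r 0) {v0 : Ω} {𝔽 : Set Ω}
    (h𝔽 : ∀ v ∈ 𝔽, sig w v ∈ 𝔽 ∧ (sig w)^[n] v = v)
    (htr : ∀ v ∈ 𝔽, ∃ g : FreeGroup X, g⁻¹ • v0 = v) {Δ0 : Finset (Ω × X)}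
    (hΔ : Conn (Δ0 : Set (Ω × X)) v0)
    (hgen : MulAction.stabilizer (FreeGroup X) v0 ≤
      Subgroup.closure ((Lp (Δ0 : Set (Ω × X)) v0 : Set (FreeGroup X)) ∪
        lolI w n (bas 𝔽 v0)))
    {A : Finset Ω} (hA : Cl w n A) (hA𝔽 : (A : Set Ω) ⊆ 𝔽) (hirr : Irr w A Δ0) :
    A.card ≤ n * (2 * Δ0.card) := by
  classical
  -- the finite connected graph `V`
  have hg : ∀ u : Ω, ∃ g : FreeGroup X, u ∈ A → g⁻¹ • v0 = u := by
    intro u
    by_cases hu : u ∈ A
    · obtain ⟨g, hg⟩ := htr u (hA𝔽 hu)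
      exact ⟨g, fun _ => hg⟩
    · exact ⟨1, fun h => absurd h hu⟩
  choose g0 hg0 using hg
  let V : Set (Ω × X) := (Δ0 : Set (Ω × X)) ∪ ((⋃ u ∈ A, eo v0 (g0 u).toWord) ∪ (cov w A : Set (Ω × X)))
  have hVfin : V.Finite := by
    refine Set.Finite.union Δ0.finite_toSet (Set.Finite.union ?_ (Finset.finite_toSet _))
    exact Set.Finite.biUnion A.finite_toSet (fun u _ => eo_finite _ _)
  have hΔV : (Δ0 : Set (Ω × X)) ⊆ V := Set.subset_union_left
  have hcovV : (cov w A : Set (Ω × X)) ⊆ V := fun e he => Or.inr (Or.inr he)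
  have hpath : ∀ u ∈ A, PG V v0 (g0 u) := by
    intro u hu
    refine ⟨(g0 u).toWord, FreeGroup.mk_toWord, Pth_iff.2 ?_⟩
    intro e he
    exact Or.inr (Or.inl (Set.mem_biUnion hu he))
  have hpath2 : ∀ u ∈ A, ∀ m, PG V v0 (g0 u * wv w m) := by
    intro u hu m
    apply PG_mul (hpath u hu)
    rw [hg0 u hu]
    exact PG_wv u m (fun t _ => hcovV (cov_all hA hu t))
  have hend : ∀ u ∈ A, ∀ m, (g0 u * wv w m)⁻¹ • v0 = vt w u m := by
    intro u hu m
    rw [mul_inv_rev, mul_smul, hg0 u hu]; rfl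
  have hV : Conn V v0 := by
    apply Conn_union hΔ
    intro e he
    rcases he with he | he
    · obtain ⟨u, hu, he⟩ := Set.mem_iUnion₂.1 he
      obtain ⟨g, hg, hg'⟩ := conn_eo v0 _ e he
      refine ⟨g, PG_mono ?_ hg, hg'⟩
      intro e' he'
      exact Or.inl (Set.mem_biUnion hu he')
    · -- an edge of a relator loop
      obtain ⟨f, hf, rfl⟩ := Finset.mem_image.1 he
      obtain ⟨u, hu, i, hi, rfl⟩ := mem_fl.1 hf
      have hD : ∀ m, PG ((⋃ u ∈ A, eo v0 (g0 u).toWord) ∪ (cov w A : Set (Ω × X))) v0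
          (g0 u * wv w m) := by
        intro m
        apply PG_mul
        · refine ⟨(g0 u).toWord, FreeGroup.mk_toWord, Pth_iff.2 ?_⟩
          intro e he
          exact Or.inl (Set.mem_biUnion hu he)
        · rw [hg0 u hu]
          exact PG_wv u m (fun t _ => Or.inr (cov_all hA hu t))
      rw [ed_vt]
      rcases hl : w.ℓ i with ⟨x, b⟩
      cases b
      · refine ⟨_, hD (i + 1), ?_⟩
        rw [hend u hu, vt_succ, hl]
        rfl
      · exact ⟨_, hD i, hend u hu i⟩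
  -- the tree
  obtain ⟨t, ht1, ht⟩ := exists_tree (V := V) (v0 := v0)
  -- finitely many lollipops
  have hI : ∀ e : Ω × X, ∃ I : Set (FreeGroup X), I ⊆ bas 𝔽 v0 ∧ I.Finite ∧ (e ∈ V → gam t e ∈
      Subgroup.closure ((Lp (Δ0 : Set (Ω × X)) v0 : Set (FreeGroup X)) ∪ lolI w n I)) := by
    intro e
    by_cases he : e ∈ V
    · have h1 := hgen (Lp_le_stab V v0 (gam_mem hV ht he))
      obtain ⟨I, hI1, hI2, hI3⟩ := mem_closure_finite _ _ _ h1
      exact ⟨I, hI1, hI2, fun _ => hI3⟩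
    · exact ⟨∅, Set.empty_subset _, Set.finite_empty, fun h => absurd h he⟩
  choose J hJ1 hJ2 hJ3 using hI
  set I : Set (FreeGroup X) := ⋃ e ∈ V, J e with hIdef
  have hIfin : I.Finite := hVfin.biUnion (fun e _ => hJ2 e)
  have hIb : I ⊆ bas 𝔽 v0 := Set.iUnion₂_subset (fun e _ => hJ1 e)
  set K := Subgroup.closure ((Lp (Δ0 : Set (Ω × X)) v0 : Set (FreeGroup X)) ∪ lolI w n I) with hK
  have hVK : Lp V v0 ≤ K := by
    refine le_trans (Lp_le_gam t ht1) ?_
    rw [Subgroup.closure_le]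
    rintro _ ⟨e, he, rfl⟩
    refine Subgroup.closure_mono ?_ (hJ3 e he)
    exact Set.union_subset_union_right _ (Set.image_mono (Set.subset_biUnion_of_mem he))
  have hKs : K ≤ MulAction.stabilizer (FreeGroup X) v0 := by
    rw [hK, Subgroup.closure_le]
    rintro g (hg | hg)
    · exact hg.2
    · exact lolI_stab h𝔽 (Set.image_mono hIb hg)
  -- the new action
  let z0 : FreeGroup X ⧸ K := ((1 : FreeGroup X) : FreeGroup X ⧸ K)
  have hz0 : ∀ g : FreeGroup X, g • z0 = z0 ↔ g ∈ K := by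
    intro g
    have := MulAction.stabilizer_quotient K
    constructor
    · intro h
      have h2 : g ∈ MulAction.stabilizer (FreeGroup X) z0 := h
      rwa [this] at h2
    · intro h
      rw [← this] at h
      exact h
  let lift : Ω → FreeGroup X ⧸ K := fun u => (t u)⁻¹ • z0
  have hlift : ∀ g, PG V v0 g → lift (g⁻¹ • v0) = g⁻¹ • z0 := by
    intro g hg
    obtain ⟨h1, h2⟩ := ht (g⁻¹ • v0) ⟨g, hg, rfl⟩
    have h3 : g * (t (g⁻¹ • v0))⁻¹ ∈ K := by
      apply hVK
      refine ⟨PG_mul hg ?_, ?_⟩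
      · have := PG_inv h1
        rwa [h2] at this
      · rw [mul_smul, h2, smul_inv_smul]
    have h4 := (hz0 _).2 h3
    rw [mul_smul] at h4
    show (t (g⁻¹ • v0))⁻¹ • z0 = g⁻¹ • z0
    rw [eq_inv_smul_iff]
    exact h4
  have hinj : ∀ g h, PG V v0 g → PG V v0 h → g⁻¹ • z0 = h⁻¹ • z0 → g⁻¹ • v0 = h⁻¹ • v0 := by
    intro g h _ _ he
    have h1 : g * h⁻¹ ∈ K := by
      rw [← hz0, mul_smul, ← he, smul_inv_smul]
    have h2 := hKs h1
    have h3 : (g * h⁻¹) • v0 = v0 := h2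
    rw [mul_smul] at h3
    rw [inv_smul_eq_iff]
    exact h3.symm
  -- lifts of relator loops
  have hvt : ∀ u ∈ A, ∀ m, vt w (lift u) m = lift (vt w u m) := by
    intro u hu m
    rw [← hend u hu m, hlift _ (hpath2 u hu m)]
    have h1 : lift u = (g0 u)⁻¹ • z0 := by
      conv_lhs => rw [← hg0 u hu]
      exact hlift _ (hpath u hu)
    rw [h1, mul_inv_rev, mul_smul]
    rfl
  have hvtz : ∀ u ∈ A, ∀ m, vt w (lift u) m = (g0 u * wv w m)⁻¹ • z0 := by
    intro u hu m
    rw [hvt u hu m, ← hend u hu m, hlift _ (hpath2 u hu m)]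
  let E1 : Finset ((FreeGroup X ⧸ K) × X) := Δ0.image (fun e => (lift e.1, e.2))
  have hE1 : E1.card ≤ Δ0.card := Finset.card_image_le
  -- lifting edges
  have hedge : ∀ g, PG V v0 g → ∀ a : X × Bool, edge (g⁻¹ • v0) a ∈ V →
      edge (g⁻¹ • z0) a = (lift (edge (g⁻¹ • v0) a).1, (edge (g⁻¹ • v0) a).2) := by
    intro g hg a ha
    obtain ⟨x, b⟩ := a
    cases b
    · rw [edge_false, edge_false]
      have h1 : PG V v0 (g * lt (x, false)) := PG_mul hg (PG_lt ha)
      have h2 := hlift _ h1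
      rw [mul_inv_rev, mul_smul, mul_smul] at h2
      have h3 : st (g⁻¹ • v0) (x, false) = (lt (x, false))⁻¹ • g⁻¹ • v0 := rfl
      rw [h3, h2]
      rfl
    · rw [edge_true, edge_true, hlift _ hg]
  have hE1mem : ∀ g, PG V v0 g → ∀ a : X × Bool, edge (g⁻¹ • v0) a ∈ Δ0 →
      edge (g⁻¹ • z0) a ∈ E1 := by
    intro g hg a ha
    rw [hedge g hg a (hΔV ha)]
    exact Finset.mem_image_of_mem (fun e : Ω × X => (lift e.1, e.2)) ha
  let F' : Finset (FreeGroup X ⧸ K) := A.image lift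
  have hliftA : ∀ u ∈ A, lift u = (g0 u)⁻¹ • z0 := by
    intro u hu
    conv_lhs => rw [← hg0 u hu]
    exact hlift _ (hpath u hu)
  have hFcard : F'.card = A.card := by
    apply Finset.card_image_of_injOn
    intro u hu v hv he
    have he' : lift u = lift v := he
    rw [hliftA u hu, hliftA v hv] at he'
    have := hinj _ _ (hpath u hu) (hpath v hv) he'
    rwa [hg0 u hu, hg0 v hv] at this
  have hsig : ∀ u ∈ A, sig w (lift u) = lift (sig w u) := fun u hu => hvt u hu w.L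
  have hsigi : ∀ u ∈ A, ∀ s, (sig w)^[s] (lift u) = lift ((sig w)^[s] u) := by
    intro u hu s
    rw [sig_iter, hvt u hu, sig_iter]
  have hF'cl : Cl w n F' := by
    refine ⟨?_, ?_⟩
    · intro z hz
      obtain ⟨u, hu, rfl⟩ := Finset.mem_image.1 hz
      rw [hsig u hu]
      exact Finset.mem_image_of_mem _ (hA.1 u hu)
    · intro z hz
      obtain ⟨u, hu, rfl⟩ := Finset.mem_image.1 hz
      rw [hsigi u hu, hA.2 u hu]
  have hF'irr : Irr w F' E1 := by
    intro f hf hfE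
    obtain ⟨z, hz, i, hi, rfl⟩ := mem_fl.1 hf
    obtain ⟨u, hu, rfl⟩ := Finset.mem_image.1 hz
    have h1 : ed w (vt w u i, (i : ZMod w.L)) ∉ Δ0 := by
      intro hcon
      apply hfE
      rw [ed_vt] at hcon ⊢
      rw [hvtz u hu]
      apply hE1mem _ (hpath2 u hu i)
      rw [hend u hu]
      exact hcon
    obtain ⟨g, hg, hg1, hg2⟩ := hirr _ (mem_fl.2 ⟨u, hu, i, hi, rfl⟩) h1
    obtain ⟨v, hv, j, hj, rfl⟩ := mem_fl.1 hg
    refine ⟨(vt w (lift v) j, (j : ZMod w.L)),
      mem_fl.2 ⟨lift v, Finset.mem_image_of_mem _ hv, j, hj, rfl⟩, ?_, ?_⟩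
    · intro he
      apply hg1
      have h7 : (j : ZMod w.L) = (i : ZMod w.L) := congrArg Prod.snd he
      refine Prod.ext ?_ h7
      have h3 : vt w (lift v) j = vt w (lift u) i := congrArg Prod.fst he
      rw [hvtz v hv, hvtz u hu] at h3
      have h4 := hinj _ _ (hpath2 v hv j) (hpath2 u hu i) h3
      rw [hend v hv, hend u hu] at h4
      exact h4
    · rw [ed_vt, ed_vt] at hg2 ⊢
      rw [hvtz v hv, hvtz u hu]
      have h5 := hedge _ (hpath2 v hv j) (w.ℓ j) (by
        rw [hend v hv]; exact hcovV (cov_all hA hv j))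
      have h6 := hedge _ (hpath2 u hu i) (w.ℓ i) (by
        rw [hend u hu]; exact hcovV (cov_all hA hu i))
      rw [h5, h6, hend v hv, hend u hu, hg2]
  -- the ambient set
  let A1 : Finset (FreeGroup X ⧸ K) :=
    (hIfin.toFinset ×ˢ Finset.range n).image (fun q => (sig w)^[q.2] (q.1⁻¹ • z0))
  have hIn : ∀ p ∈ I, wv w (w.L * n) • (p⁻¹ • z0) = p⁻¹ • z0 := by
    intro p hp
    have h1 : p * wv w (w.L * n) * p⁻¹ ∈ K :=
      Subgroup.subset_closure (Or.inr ⟨p, hp, rfl⟩)
    have h2 := (hz0 _).2 h1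
    rw [mul_smul, mul_smul] at h2
    rw [eq_inv_smul_iff]
    exact h2
  have hIn' : ∀ p ∈ I, (sig w)^[n] (p⁻¹ • z0) = p⁻¹ • z0 := by
    intro p hp
    rw [sig_iter_smul, ← wv_mul, inv_smul_eq_iff]
    exact (hIn p hp).symm
  have hA1cl : Cl w n A1 := by
    refine ⟨?_, ?_⟩
    · intro z hz
      obtain ⟨⟨p, s⟩, hps, rfl⟩ := Finset.mem_image.1 hz
      obtain ⟨hp, hs⟩ := Finset.mem_product.1 hps
      have hp' : p ∈ I := hIfin.mem_toFinset.1 hp
      have hs' : s < n := Finset.mem_range.1 hs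
      show sig w ((sig w)^[s] (p⁻¹ • z0)) ∈ A1
      rw [← Function.iterate_succ_apply' (sig w)]
      rcases Nat.lt_or_ge (s + 1) n with h | h
      · exact Finset.mem_image.2 ⟨(p, s + 1), Finset.mem_product.2
          ⟨hp, Finset.mem_range.2 h⟩, rfl⟩
      · have : s + 1 = n := by omega
        rw [Nat.succ_eq_add_one, this, hIn' p hp']
        exact Finset.mem_image.2 ⟨(p, 0), Finset.mem_product.2
          ⟨hp, Finset.mem_range.2 hn⟩, rfl⟩
    · intro z hz
      obtain ⟨⟨p, s⟩, hps, rfl⟩ := Finset.mem_image.1 hz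
      obtain ⟨hp, hs⟩ := Finset.mem_product.1 hps
      have hp' : p ∈ I := hIfin.mem_toFinset.1 hp
      show (sig w)^[n] ((sig w)^[s] (p⁻¹ • z0)) = (sig w)^[s] (p⁻¹ • z0)
      rw [← Function.iterate_add_apply, add_comm, Function.iterate_add_apply, hIn' p hp']
  let A0 := F' ∪ A1
  have hA0 : Cl w n A0 := by
    refine ⟨?_, ?_⟩
    · intro z hz
      rcases Finset.mem_union.1 hz with hz | hz
      · exact Finset.mem_union_left _ (hF'cl.1 z hz)
      · exact Finset.mem_union_right _ (hA1cl.1 z hz)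
    · intro z hz
      rcases Finset.mem_union.1 hz with hz | hz
      · exact hF'cl.2 z hz
      · exact hA1cl.2 z hz
  have hPP : PP w n k A0 E1 := by
    intro φ hφ hφ0
    have hKh : K ≤ hker φ z0 := by
      refine (Subgroup.closure_le (hker φ z0)).2 ?_
      rintro g (hg | hg)
      · have hgK : g ∈ K := Subgroup.subset_closure (Or.inl hg)
        refine ⟨(hz0 g).2 hgK, ?_⟩
        -- the path lifts into `E1`
        obtain ⟨⟨l, rfl, hl⟩, -⟩ := hg
        have h1 : ∀ (l' : List (X × Bool)) (g : FreeGroup X), PG V v0 g →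
            Pth (Δ0 : Set (Ω × X)) (g⁻¹ • v0) l' →
            Pth (E1 : Set ((FreeGroup X ⧸ K) × X)) (g⁻¹ • z0) l' := by
          intro l'
          induction l' with
          | nil => intro _ _ _; trivial
          | cons a l' ih =>
            intro g hg hl'
            refine ⟨hE1mem g hg a hl'.1, ?_⟩
            have h2 := ih (g * lt a) (PG_mul hg (PG_lt (hΔV hl'.1))) (by
              rw [mul_inv_rev, mul_smul]; exact hl'.2)
            rw [mul_inv_rev, mul_smul] at h2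
            exact h2
        have h2 := h1 l 1 (PG_one _ _) (by rw [inv_one, one_smul]; exact hl)
        rw [inv_one, one_smul] at h2
        rw [hol_congr (φ' := fun _ => 1) (D := (E1 : Set ((FreeGroup X ⧸ K) × X)))
          (fun e he => hφ0 e he) ⟨l, rfl, h2⟩]
        -- trivial cocycle
        have h3 : ∀ (l : List (X × Bool)) (z : FreeGroup X ⧸ K),
            hll (fun _ => (1 : Multiplicative k)) z l = 1 := by
          intro l
          induction l with
          | nil => intro _; rfl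
          | cons a l ih =>
            intro z
            show Units.hl _ z a * hll _ (st z a) l = 1
            rw [ih, mul_one]
            unfold Units.hl
            split_ifs <;> simp
        exact h3 l z0
      · obtain ⟨p, hp, rfl⟩ := hg
        have hpK : p * wv w (w.L * n) * p⁻¹ ∈ K :=
          Subgroup.subset_closure (Or.inr ⟨p, hp, rfl⟩)
        refine ⟨(hz0 _).2 hpK, ?_⟩
        show hol φ z0 (p * wv w (w.L * n) * p⁻¹) = 1
        rw [hol_conj φ z0 p _ (hIn p hp), hφ (p⁻¹ • z0), mul_one, mul_inv_cancel]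
        apply Finset.mem_union_right
        exact Finset.mem_image.2 ⟨(p, 0), Finset.mem_product.2
          ⟨hIfin.mem_toFinset.2 hp, Finset.mem_range.2 hn⟩, rfl⟩
    have hcos : ∀ z : FreeGroup X ⧸ K, ∃ g : FreeGroup X, g⁻¹ • z0 = z := by
      intro z
      obtain ⟨g, rfl⟩ := QuotientGroup.mk_surjective z
      refine ⟨g⁻¹, ?_⟩
      show ((g⁻¹⁻¹ * 1 : FreeGroup X) : FreeGroup X ⧸ K) = _
      rw [_root_.inv_inv, mul_one]
    choose c hc using hcos
    have hwd : ∀ g h : FreeGroup X, g⁻¹ • z0 = h⁻¹ • z0 → hol φ z0 g = hol φ z0 h := by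
      intro g h he
      have h1 : g * h⁻¹ ∈ K := by
        rw [← hz0, mul_smul, ← he, smul_inv_smul]
      have h2 := hKh h1
      have h3 : hol φ z0 (g * h⁻¹ * h) = hol φ z0 h := by
        rw [hol_mul, h2.2, one_mul, inv_smul_eq_iff.2 h2.1.symm]
      rw [inv_mul_cancel_right] at h3
      exact h3
    refine ⟨fun z => hol φ z0 (c z), ?_⟩
    intro e _
    have h1 : hol φ z0 (c e.1 * lt (e.2, true)) = hol φ z0 (c e.1) * φ e := by
      rw [hol_mul, hol_lt, hc e.1]
      rfl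
    have h2 : hol φ z0 (c (st e.1 (e.2, true))) = hol φ z0 (c e.1 * lt (e.2, true)) := by
      apply hwd
      rw [hc, mul_inv_rev, mul_smul, hc]
      rfl
    show φ e = (hol φ z0 (c e.1))⁻¹ * hol φ z0 (c (st e.1 (e.2, true)))
    rw [h2, h1, inv_mul_cancel_left]
  have hfinal := bound_core hn hnk s hmax (F' := F') (A0 := A0) Finset.subset_union_left hF'cl hA0
    hPP hF'irr
  rw [hFcard] at hfinal
  refine le_trans hfinal (Nat.mul_le_mul_left _ (Nat.mul_le_mul_left _ hE1))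

end

end Pool.Agent.H355.Units
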