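import Pool.Agent.H355.Units.Inv

set_option autoImplicit false

/-!
# Finite presentability of the group of units
-/

namespace Pool.Agent.H355.Units

open Pool.H679R3.OR

variable {X : Type} {R : List (X × Bool)}

theorem smul_base_iff (g : FreeGroup X) :
    g • ((1 : FreeGroup X) : FreeGroup X ⧸ HH R) = ((1 : FreeGroup X) : FreeGroup X ⧸ HH R) ↔
      g ∈ HH R := coset_smul (HH R) g

theorem mem_HH {g : FreeGroup X} : g ∈ HH R ↔ ∃ l, FreeGroup.mk l = g ∧ IsUnit (cls R l) :=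
  Iff.rfl

theorem NN_le_HH : NN R ≤ HH R := by
  rintro _ ⟨l, rfl, hl⟩
  exact ⟨l, rfl, hl ▸ isUnit_one⟩

/-- the homomorphism to the group of units -/
noncomputable def piU (R : List (X × Bool)) : HH R →* (InvMon (FreeMonoid.ofList R))ˣ where
  toFun g := (mem_HH.1 g.2).choose_spec.2.unit
  map_one' := by
    apply Units.ext
    show cls R _ = 1
    have h := (mem_HH.1 (1 : HH R).2).choose_spec
    rw [← cls_nil R]
    exact RU_unique (RU_isUnit h.2) RU_nil h.1
  map_mul' := by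
    intro g h
    apply Units.ext
    show cls R _ = cls R _ * cls R _
    have h1 := (mem_HH.1 (g * h).2).choose_spec
    have h2 := (mem_HH.1 g.2).choose_spec
    have h3 := (mem_HH.1 h.2).choose_spec
    rw [← cls_append]
    apply RU_unique (RU_isUnit h1.2) (RU_append (RU_isUnit h2.2) (RU_isUnit h3.2))
    rw [h1.1, mk_append, h2.1, h3.1]
    rfl

theorem piU_val (g : HH R) {l : List (X × Bool)} (hl : FreeGroup.mk l = g) (hu : IsUnit (cls R l)) :
    (piU R g : InvMon (FreeMonoid.ofList R)) = cls R l := by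
  have h := (mem_HH.1 g.2).choose_spec
  show cls R _ = cls R l
  exact RU_unique (RU_isUnit h.2) (RU_isUnit hu) (h.1.trans hl.symm)

theorem piU_surj : Function.Surjective (piU R) := by
  intro u
  obtain ⟨l, hl⟩ := cls_surj R (u : InvMon (FreeMonoid.ofList R))
  have hu : IsUnit (cls R l) := hl ▸ Units.isUnit u
  refine ⟨⟨FreeGroup.mk l, l, rfl, hu⟩, ?_⟩
  apply Units.ext
  rw [piU_val _ rfl hu, hl]

theorem piU_ker (g : HH R) : piU R g = 1 ↔ (g : FreeGroup X) ∈ NN R := by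
  obtain ⟨l, hl, hu⟩ := mem_HH.1 g.2
  rw [← Units.val_eq_one, piU_val g hl hu]
  constructor
  · intro h
    exact ⟨l, hl, h⟩
  · rintro ⟨l', hl', h'⟩
    have : cls R l = cls R l' := by
      apply RU_unique (RU_isUnit hu) (RU_isUnit (h' ▸ isUnit_one)) (hl.trans hl'.symm)
    rw [this, h']

/-- units are products of prefixes which are units -/
theorem units_gen {v0 : FreeGroup X ⧸ HH R} (hv0 : v0 = ((1 : FreeGroup X) : FreeGroup X ⧸ HH R))
    {x : InvMon (FreeMonoid.ofList R)} (hx : x ∈ Pf R) (hu : IsUnit x) :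
    ∃ l, FreeGroup.mk l ∈ Lp (eo v0 R) v0 ∧ cls R l = x := by
  induction hx using Submonoid.closure_induction with
  | mem x hx =>
    obtain ⟨q, ⟨t, ht⟩, rfl⟩ := hx
    refine ⟨q, ⟨⟨q, rfl, ?_⟩, ?_⟩, rfl⟩
    · have h1 : Pth (eo v0 R) v0 R := Pth_iff.2 (le_refl _)
      have h2 : Pth (eo v0 R) v0 (q ++ t) := by
        have : q ++ t = R := ht
        rw [this]; exact h1
      exact (Pth_append.1 h2).1
    · rw [hv0]
      exact (smul_base_iff _).2 ⟨q, rfl, hu⟩
  | one => exact ⟨[], one_mem _, rfl⟩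
  | mul x y hx hy ihx ihy =>
    obtain ⟨y', hy'⟩ := Pf_rinv hy
    obtain ⟨u, hu⟩ := hu
    have hyu : IsUnit y := by
      have h1 : ((u⁻¹ : (InvMon (FreeMonoid.ofList R))ˣ) : InvMon (FreeMonoid.ofList R)) * x * y
          = 1 := by
        rw [mul_assoc, ← hu, Units.inv_mul]
      have h2 : y' = ((u⁻¹ : (InvMon (FreeMonoid.ofList R))ˣ) : InvMon (FreeMonoid.ofList R)) * x :=
        (left_inv_eq_right_inv h1 hy').symm
      exact ⟨⟨y, y', hy', by rw [h2]; exact h1⟩, rfl⟩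
    have hxu : IsUnit x := by
      obtain ⟨v, hv⟩ := hyu
      have h1 : x = ((u * v⁻¹ : (InvMon (FreeMonoid.ofList R))ˣ) :
          InvMon (FreeMonoid.ofList R)) := by
        rw [Units.val_mul, hu, ← hv, mul_assoc, Units.mul_inv, mul_one]
      rw [h1]
      exact Units.isUnit _
    obtain ⟨l, hl, hl'⟩ := ihx hxu
    obtain ⟨m, hm, hm'⟩ := ihy hyu
    refine ⟨l ++ m, ?_, by rw [cls_append, hl', hm']⟩
    rw [mk_append]
    exact mul_mem hl hm

theorem hgen_aux {v0 : FreeGroup X ⧸ HH R} (hv0 : v0 = ((1 : FreeGroup X) : FreeGroup X ⧸ HH R)) :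
    HH R ≤ Subgroup.closure ((Lp (eo v0 R) v0 : Set (FreeGroup X)) ∪ (NN R : Set (FreeGroup X))) := by
  rintro _ ⟨l, rfl, hu⟩
  obtain ⟨m, hm, hm'⟩ := units_gen hv0 (mem_Pf (RU_isUnit hu)) hu
  have h1 : FreeGroup.mk l * (FreeGroup.mk m)⁻¹ ∈ NN R := by
    refine ⟨l ++ linv m, by rw [mk_append, mk_linv], ?_⟩
    have h2 : RU R m := RU_congr hm'.symm (RU_isUnit hu)
    rw [cls_append, ← hm']
    exact h2
  have h3 : FreeGroup.mk l = (FreeGroup.mk l * (FreeGroup.mk m)⁻¹) * FreeGroup.mk m := by group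
  rw [h3]
  exact mul_mem (Subgroup.subset_closure (Or.inr h1)) (Subgroup.subset_closure (Or.inl hm))

theorem coset_trans (H : Subgroup (FreeGroup X)) (v : FreeGroup X ⧸ H) :
    ∃ g : FreeGroup X, g⁻¹ • ((1 : FreeGroup X) : FreeGroup X ⧸ H) = v := by
  obtain ⟨g, rfl⟩ := QuotientGroup.mk_surjective v
  refine ⟨g⁻¹, ?_⟩
  show ((g⁻¹⁻¹ * 1 : FreeGroup X) : FreeGroup X ⧸ H) = _
  rw [_root_.inv_inv, mul_one]

/-- the units when the relator is trivial in the free group -/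
theorem units_fp_dyck (hR : FreeGroup.mk R = 1) :
    Group.IsFinitelyPresented (InvMon (FreeMonoid.ofList R))ˣ := by
  classical
  have hN : NN R = ⊥ := by
    rw [NN_eq, Subgroup.closure_eq_bot_iff]
    rintro _ ⟨l, _, rfl⟩
    rw [hR, mul_one, mul_inv_cancel]
    rfl
  set v0 : FreeGroup X ⧸ HH R := ((1 : FreeGroup X) : FreeGroup X ⧸ HH R) with hv0
  have hfp := Lp_fp (eo_finite v0 R) v0
  have hle : Lp (eo v0 R) v0 ≤ HH R := by
    intro g hg
    exact (smul_base_iff g).1 hg.2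
  let ι : Lp (eo v0 R) v0 →* HH R := Subgroup.inclusion hle
  have hge : HH R ≤ Lp (eo v0 R) v0 := by
    refine le_trans (hgen_aux hv0) ?_
    rw [Subgroup.closure_le, hN]
    rintro g (hg | hg)
    · exact hg
    · rw [show g = 1 from hg]
      exact one_mem _
  have hsurj : Function.Surjective ((piU R).comp ι) := by
    intro u
    obtain ⟨g, rfl⟩ := piU_surj u
    exact ⟨⟨g.1, hge g.2⟩, rfl⟩
  refine Group.IsFinitelyPresented.of_surjective _ hsurj ⟨∅, Set.finite_empty, ?_⟩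
  rw [Subgroup.normalClosure_empty]
  symm
  rw [eq_bot_iff]
  intro g hg
  have h1 : piU R (ι g) = 1 := hg
  rw [piU_ker, hN] at h1
  exact Subtype.ext h1

/-- the units when the relator is conjugate to a proper power -/
theorem units_fp_power {w : Wd X} (s : Stk w) (hmax : ∀ i, s.r i ≤ s.r 0) {n : ℕ} (hn : 2 ≤ n)
    {g0 : FreeGroup X} (hR : FreeGroup.mk R = g0 * wv w (w.L * n) * g0⁻¹) :
    Group.IsFinitelyPresented (InvMon (FreeMonoid.ofList R))ˣ := by
  classical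
  set v0 : FreeGroup X ⧸ HH R := ((1 : FreeGroup X) : FreeGroup X ⧸ HH R) with hv0
  have hst : ∀ g : FreeGroup X, g • v0 = v0 ↔ g ∈ HH R := smul_base_iff
  let 𝔽 : Set (FreeGroup X ⧸ HH R) :=
    {v | ∃ l m, RU R l ∧ v = (FreeGroup.mk l * g0 * wv w w.L ^ m)⁻¹ • v0}
  have hconj : ∀ (p : FreeGroup X) (m : ℕ), (p * g0 * wv w w.L ^ m) * wv w (w.L * n) *
      (p * g0 * wv w w.L ^ m)⁻¹ = p * FreeGroup.mk R * p⁻¹ := by
    intro p m
    rw [hR, wv_mul w n]
    have e : wv w w.L ^ m * wv w w.L ^ n = wv w w.L ^ n * wv w w.L ^ m :=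
      (Commute.pow_pow (Commute.refl _) m n).eq
    calc p * g0 * wv w w.L ^ m * wv w w.L ^ n * (p * g0 * wv w w.L ^ m)⁻¹ =
        p * g0 * (wv w w.L ^ m * wv w w.L ^ n) * (p * g0 * wv w w.L ^ m)⁻¹ := by group
      _ = p * (g0 * wv w w.L ^ n * g0⁻¹) * p⁻¹ := by rw [e]; group
  have h𝔽 : ∀ v ∈ 𝔽, sig w v ∈ 𝔽 ∧ (sig w)^[n] v = v := by
    rintro v ⟨l, m, hl, rfl⟩
    constructor
    · refine ⟨l, m + 1, hl, ?_⟩
      show (wv w w.L)⁻¹ • _ = _
      rw [← mul_smul, ← mul_inv_rev, pow_succ, mul_assoc, mul_assoc]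
    · rw [sig_iter_smul, inv_smul_eq_iff]
      have h1 : (FreeGroup.mk l * g0 * wv w w.L ^ m) * wv w (w.L * n) *
          (FreeGroup.mk l * g0 * wv w w.L ^ m)⁻¹ ∈ HH R := by
        rw [hconj]
        exact NN_le_HH (le_NN (Subgroup.subset_closure ⟨l, hl, rfl⟩))
      have h2 := (hst _).2 h1
      rw [mul_smul, mul_smul, wv_mul w n] at h2
      rw [inv_smul_eq_iff]
      exact h2.symm
  have hlol : lolI w n (bas 𝔽 v0) =
      {g | ∃ l, RU R l ∧ g = FreeGroup.mk l * FreeGroup.mk R * (FreeGroup.mk l)⁻¹} := by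
    ext g
    constructor
    · rintro ⟨p, ⟨l, m, hl, hp⟩, rfl⟩
      have h1 := (coset_eq (HH R) _ _).1 hp
      obtain ⟨lh, h2, h3⟩ := h1
      refine ⟨lh ++ l, RU_append (RU_isUnit h3) hl, ?_⟩
      have h4 : p = FreeGroup.mk (lh ++ l) * g0 * wv w w.L ^ m := by
        rw [mk_append, h2]; group
      show p * wv w (w.L * n) * p⁻¹ = _
      rw [h4, hconj]
    · rintro ⟨l, hl, rfl⟩
      refine ⟨FreeGroup.mk l * g0 * wv w w.L ^ 0, ⟨l, 0, hl, rfl⟩, ?_⟩
      exact hconj _ _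
  have hNN : NN R = Subgroup.closure (lolI w n (bas 𝔽 v0)) := by rw [hlol]; exact NN_eq
  have hstab : MulAction.stabilizer (FreeGroup X) v0 = HH R := MulAction.stabilizer_quotient _
  let Δ0 : Finset ((FreeGroup X ⧸ HH R) × X) := (eo_finite v0 R).toFinset
  have hΔ0 : (Δ0 : Set ((FreeGroup X ⧸ HH R) × X)) = eo v0 R := Set.Finite.coe_toFinset _
  let e : MulAction.stabilizer (FreeGroup X) v0 ≃* HH R := MulEquiv.subgroupCongr hstab
  refine fp_main (w := w) (v0 := v0) (𝔽 := 𝔽) (Δ0 := Δ0) hn s hmax h𝔽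
    (fun v _ => coset_trans _ v) (by rw [hΔ0]; exact conn_eo v0 R) ?_
    ((piU R).comp e.toMonoidHom) (piU_surj.comp e.surjective) ?_
  · rw [hstab, hΔ0]
    refine le_trans (hgen_aux hv0) ?_
    rw [Subgroup.closure_le]
    rintro g (hg | hg)
    · exact Subgroup.subset_closure (Or.inl hg)
    · rw [hNN] at hg
      exact Subgroup.closure_mono Set.subset_union_right hg
  · intro g
    rw [← hNN]
    exact piU_ker (e g)

/-- The group of units of `Inv⟨A ∣ R = 1⟩` is finitely presented whenever `R` represents a proper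
power in the free group. -/
theorem units_fp {u : FreeGroup X} {k : ℕ} (hk : 2 ≤ k) (hR : FreeGroup.mk R = u ^ k) :
    Group.IsFinitelyPresented (InvMon (FreeMonoid.ofList R))ˣ := by
  by_cases hu : u = 1
  · apply units_fp_dyck
    rw [hR, hu, one_pow]
  · obtain ⟨w, K, g, hK, hr⟩ := exists_wd u hu
    obtain ⟨i0, s, hs⟩ := exists_rot_stk w
    refine units_fp_power s hs (n := K * k) ?_ (g0 := g * W FreeGroup.of w.ℓ i0) ?_
    · calc 2 ≤ k := hk
        _ ≤ K * k := Nat.le_mul_of_pos_left _ hK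
    · have h1 : wv (w.rot i0) ((w.rot i0).L * (K * k)) =
          (W FreeGroup.of w.ℓ i0)⁻¹ * W FreeGroup.of w.ℓ (w.L * (K * k)) * W FreeGroup.of w.ℓ i0 :=
        w.W_rot_mul _ _ _
      have h2 : W FreeGroup.of w.ℓ (w.L * (K * k)) = W FreeGroup.of w.ℓ (w.L * K) ^ k := by
        have := w.W_mul FreeGroup.of (K * k)
        rw [this, w.W_mul, pow_mul]
      rw [h1, h2, hR, hr, conj_pow]
      group

end Pool.Agent.H355.Units
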