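import Pool.Agent.H355.Units.Basic

set_option autoImplicit false

/-!
# The stacking of a one-relator word and the counting inequality
-/

namespace Pool.Agent.H355.Units

open Pool.H679R3.OR

variable {X : Type}

instance instNeZeroL (w : Wd X) : NeZero w.L := ⟨w.pos.ne'⟩

/-- letters indexed by `ZMod L` -/
def lz (w : Wd X) (i : ZMod w.L) : X × Bool := w.ℓ i.val

theorem lz_natCast (w : Wd X) (n : ℕ) : lz w (n : ZMod w.L) = w.ℓ n := by
  unfold lz
  rw [ZMod.val_natCast, w.per_mod]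

theorem val_succ_mod (w : Wd X) (i : ZMod w.L) : (i + 1).val = (i.val + 1) % w.L := by
  have h : (i + 1) = ((i.val + 1 : ℕ) : ZMod w.L) := by
    push_cast
    rw [ZMod.natCast_zmod_val]
  rw [h, ZMod.val_natCast]

theorem lz_succ (w : Wd X) (i : ZMod w.L) : lz w (i + 1) = w.ℓ (i.val + 1) := by
  unfold lz
  rw [val_succ_mod, w.per_mod]

theorem lz_red (w : Wd X) (i : ZMod w.L) : lz w (i + 1) ≠ inv (lz w i) := by
  rw [lz_succ]
  exact w.red _

/-- a stacking -/
structure Stk (w : Wd X) where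
  O : Type
  [lin : LinearOrder O]
  r : ZMod w.L → O
  inj : Function.Injective r
  c1 : ∀ i j, lz w i = lz w j → (r i < r j ↔ r (i + 1) < r (j + 1))
  c2 : ∀ i j, lz w i = inv (lz w j) → (r i < r (j + 1) ↔ r (i + 1) < r j)

attribute [instance] Stk.lin

theorem exists_stk (w : Wd X) : Nonempty (Stk w) := by
  obtain ⟨O, _, ρ, hρ1, hρ2, hρ3⟩ := w.main.2
  have hρmul : ∀ k n, ρ (n + w.L * k) = ρ n := by
    intro k n
    induction k with
    | zero => simp
    | succ k ih => rw [Nat.mul_succ, ← add_assoc, hρ1, ih]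
  have hmod : ∀ n, ρ (n % w.L) = ρ n := by
    intro n
    conv_rhs => rw [← Nat.mod_add_div n w.L]
    rw [hρmul]
  have key : ∀ i j i' j' : ℕ, W w.b w.ℓ i * (W w.b w.ℓ j)⁻¹ = W w.b w.ℓ i' * (W w.b w.ℓ j')⁻¹ →
      ρ j < ρ i → ρ j' < ρ i' := by
    intro i j i' j' h hlt
    rcases lt_trichotomy (ρ j') (ρ i') with h1 | h1 | h1
    · exact h1
    · exfalso
      apply hρ3 [(i, j)] (by simp) (by simpa using hlt)
      have h2 := hρ2 _ _ h1
      have h3 : W w.b w.ℓ j' = W w.b w.ℓ i' := by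
        rw [← w.W_b_mod j', ← w.W_b_mod i', show j' % w.L = i' % w.L from h2]
      simp [h, h3]
    · exfalso
      apply hρ3 [(i, j), (j', i')] (by simp) (by
        intro q hq
        simp only [List.mem_cons, List.not_mem_nil, or_false] at hq
        rcases hq with rfl | rfl
        · exact hlt
        · exact h1)
      simp [h]
  have key2 : ∀ i j i' j' : ℕ, W w.b w.ℓ i * (W w.b w.ℓ j)⁻¹ = W w.b w.ℓ i' * (W w.b w.ℓ j')⁻¹ →
      (ρ j < ρ i ↔ ρ j' < ρ i') := fun i j i' j' h => ⟨key _ _ _ _ h, key _ _ _ _ h.symm⟩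
  have hs : ∀ i : ZMod w.L, ρ (i + 1).val = ρ (i.val + 1) := by
    intro i
    rw [val_succ_mod, hmod]
  refine ⟨⟨O, fun i => ρ i.val, ?_, ?_, ?_⟩⟩
  · intro i j h
    have h1 := hρ2 _ _ h
    apply ZMod.val_injective
    have h2 := ZMod.val_lt i
    have h3 := ZMod.val_lt j
    unfold Nat.ModEq at h1
    rwa [Nat.mod_eq_of_lt h2, Nat.mod_eq_of_lt h3] at h1
  · intro i j h
    show ρ i.val < ρ j.val ↔ ρ (i + 1).val < ρ (j + 1).val
    rw [hs, hs]
    apply key2
    have h' : w.ℓ i.val = w.ℓ j.val := h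
    rw [W_succ, W_succ, h']
    group
  · intro i j h
    show ρ i.val < ρ (j + 1).val ↔ ρ (i + 1).val < ρ j.val
    rw [hs, hs]
    apply key2
    have h' : w.ℓ i.val = inv (w.ℓ j.val) := h
    rw [W_succ, W_succ, h', sg_inv]
    group

theorem lz_rot (w : Wd X) (i0 : ℕ) (i : ZMod w.L) :
    lz (w.rot i0) i = lz w ((i0 : ZMod w.L) + i) := by
  have h : ((i0 : ZMod w.L) + i) = ((i0 + i.val : ℕ) : ZMod w.L) := by
    push_cast
    rw [ZMod.natCast_zmod_val]
  rw [h, lz_natCast]
  rfl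

theorem rot_stk (w : Wd X) (s : Stk w) (i0 : ℕ) :
    ∃ s' : Stk (w.rot i0), ∃ hO : s'.O = s.O, ∀ i j : ZMod w.L,
      (s'.r i ≤ s'.r j ↔ s.r ((i0 : ZMod w.L) + i) ≤ s.r ((i0 : ZMod w.L) + j)) := by
  refine ⟨⟨s.O, (fun i => s.r ((i0 : ZMod w.L) + i) : ZMod w.L → s.O), ?_, ?_, ?_⟩, rfl, ?_⟩
  · intro (a : ZMod w.L) (b : ZMod w.L) h
    have h1 : (i0 : ZMod w.L) + a = (i0 : ZMod w.L) + b := s.inj h
    exact (add_right_inj (G := ZMod w.L) _).1 h1
  · intro (a : ZMod w.L) (b : ZMod w.L) h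
    have h1 : lz w ((i0 : ZMod w.L) + a) = lz w ((i0 : ZMod w.L) + b) :=
      (lz_rot w i0 a).symm.trans (Eq.trans h (lz_rot w i0 b))
    have h2 := s.c1 _ _ h1
    rw [add_assoc, add_assoc] at h2
    exact h2
  · intro (a : ZMod w.L) (b : ZMod w.L) h
    have h1 : lz w ((i0 : ZMod w.L) + a) = inv (lz w ((i0 : ZMod w.L) + b)) :=
      (lz_rot w i0 a).symm.trans (Eq.trans h (congrArg inv (lz_rot w i0 b)))
    have h2 := s.c2 _ _ h1
    rw [add_assoc, add_assoc] at h2
    exact h2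
  · intro i j
    exact Iff.rfl

/-- after rotation, position `0` is the highest one -/
theorem exists_rot_stk (w : Wd X) : ∃ i0, ∃ s : Stk (w.rot i0), ∀ i, s.r i ≤ s.r 0 := by
  obtain ⟨s⟩ := exists_stk w
  obtain ⟨j, -, hj⟩ := Finset.exists_max_image Finset.univ s.r ⟨0, Finset.mem_univ _⟩
  obtain ⟨s', -, hs'⟩ := rot_stk w s j.val
  refine ⟨j.val, s', ?_⟩
  intro (i : ZMod w.L)
  refine (hs' i (0 : ZMod w.L)).2 ?_
  rw [add_zero, ZMod.natCast_zmod_val]
  exact hj _ (Finset.mem_univ _)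

/-! ### flags -/

section flags
variable {Ω : Type*} [MulAction (FreeGroup X) Ω] (w : Wd X)

/-- next flag -/
def nx (f : Ω × ZMod w.L) : Ω × ZMod w.L := (st f.1 (lz w f.2), f.2 + 1)

/-- edge of a flag -/
def ed (f : Ω × ZMod w.L) : Ω × X := edge f.1 (lz w f.2)

theorem nx_inj : Function.Injective (nx w : Ω × ZMod w.L → Ω × ZMod w.L) := by
  intro f g h
  have h2 : f.2 = g.2 := add_right_cancel (congrArg Prod.snd h)
  have h1 : st f.1 (lz w f.2) = st g.1 (lz w g.2) := congrArg Prod.fst h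
  rw [h2] at h1
  exact Prod.ext (st_inj h1) h2

theorem nx_iter_snd (f : Ω × ZMod w.L) (t : ℕ) : ((nx w)^[t] f).2 = f.2 + t := by
  induction t with
  | zero => simp
  | succ t ih =>
    rw [Function.iterate_succ_apply']
    show ((nx w)^[t] f).2 + 1 = _
    rw [ih]; push_cast; ring

variable {w}

/-- two flags over the same edge: same direction or opposite -/
theorem ed_eq {f g : Ω × ZMod w.L} (h : ed w f = ed w g) :
    (f.1 = g.1 ∧ lz w f.2 = lz w g.2) ∨
      (g.1 = (nx w f).1 ∧ lz w g.2 = inv (lz w f.2) ∧ f.1 = (nx w g).1) := by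
  rcases edge_eq h with h1 | ⟨h1, h2⟩
  · exact Or.inl h1
  · right
    refine ⟨h1, h2, ?_⟩
    show f.1 = st g.1 (lz w g.2)
    rw [h1, h2, st_st_inv]

/-- height of a flag at the source of its (positive) edge -/
def hS (s : Stk w) (f : Ω × ZMod w.L) : s.O :=
  if (lz w f.2).2 then s.r f.2 else s.r (f.2 + 1)

omit [MulAction (FreeGroup X) Ω] in
theorem hS_true {s : Stk w} {f : Ω × ZMod w.L} (h : (lz w f.2).2 = true) : hS s f = s.r f.2 :=
  if_pos h

omit [MulAction (FreeGroup X) Ω] in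
theorem hS_false {s : Stk w} {f : Ω × ZMod w.L} (h : (lz w f.2).2 = false) :
    hS s f = s.r (f.2 + 1) := if_neg (by simp [h])

variable (C : Finset (Ω × ZMod w.L)) (s : Stk w)

/-- top vertex flags -/
def TV (f : Ω × ZMod w.L) : Prop := f ∈ C ∧ ∀ g ∈ C, g.1 = f.1 → s.r g.2 ≤ s.r f.2

/-- top edge flags -/
def TE (f : Ω × ZMod w.L) : Prop := f ∈ C ∧ ∀ g ∈ C, ed w g = ed w f → hS s g ≤ hS s f

variable {C s}

theorem c1_le {i j : ZMod w.L} (h : lz w i = lz w j) : s.r i ≤ s.r j ↔ s.r (i + 1) ≤ s.r (j + 1) := by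
  rw [← not_lt, ← not_lt, s.c1 _ _ h.symm]

theorem c2_le {i j : ZMod w.L} (h : lz w i = inv (lz w j)) :
    s.r i ≤ s.r (j + 1) ↔ s.r (i + 1) ≤ s.r j := by
  rw [← not_lt, ← not_lt]
  have h' : lz w j = inv (lz w i) := by rw [h, Pool.H679R3.OR.inv_inv]
  rw [← s.c2 _ _ h']

theorem TV_TE (hC : ∀ f ∈ C, nx w f ∈ C) {f : Ω × ZMod w.L} (h : TV C s f) : TE C s f := by
  refine ⟨h.1, fun g hg he => ?_⟩
  rcases ed_eq he with ⟨h1, h2⟩ | ⟨h1, h2, h3⟩
  · have h4 := h.2 g hg h1
    cases hb : (lz w g.2).2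
    · rw [hS_false hb, hS_false (by rw [← h2]; exact hb), ← c1_le h2]
      exact h4
    · rw [hS_true hb, hS_true (by rw [← h2]; exact hb)]
      exact h4
  · -- opposite: `nx g` is over the vertex of `f`
    have h4 : s.r (g.2 + 1) ≤ s.r f.2 := h.2 (nx w g) (hC g hg) h1.symm
    cases hb : (lz w g.2).2
    · have hb' : (lz w f.2).2 = true := by rw [h2]; simp [inv, hb]
      rw [hS_false hb, hS_true hb']
      exact h4
    · have hb' : (lz w f.2).2 = false := by rw [h2]; simp [inv, hb]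
      rw [hS_true hb, hS_false hb']
      have h5 : lz w g.2 = inv (lz w f.2) := by rw [h2, Pool.H679R3.OR.inv_inv]
      exact (c2_le h5).2 h4

theorem TV_TE' (hC : ∀ f ∈ C, nx w f ∈ C) {f : Ω × ZMod w.L} (hf : f ∈ C)
    (h : TV C s (nx w f)) : TE C s f := by
  refine ⟨hf, fun g hg he => ?_⟩
  rcases ed_eq he with ⟨h1, h2⟩ | ⟨h1, h2, h3⟩
  · have e : (nx w g).1 = (nx w f).1 := by
      show st g.1 (lz w g.2) = st f.1 (lz w f.2)
      rw [h1, h2]
    have h4 : s.r (g.2 + 1) ≤ s.r (f.2 + 1) := h.2 (nx w g) (hC g hg) e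
    cases hb : (lz w g.2).2
    · rw [hS_false hb, hS_false (by rw [← h2]; exact hb)]
      exact h4
    · rw [hS_true hb, hS_true (by rw [← h2]; exact hb), c1_le h2]
      exact h4
  · have h4 : s.r g.2 ≤ s.r (f.2 + 1) := h.2 g hg h3
    cases hb : (lz w g.2).2
    · have hb' : (lz w f.2).2 = true := by rw [h2]; simp [inv, hb]
      rw [hS_false hb, hS_true hb']
      have h5 : lz w g.2 = inv (lz w f.2) := by rw [h2, Pool.H679R3.OR.inv_inv]
      exact (c2_le h5).1 h4
    · have hb' : (lz w f.2).2 = false := by rw [h2]; simp [inv, hb]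
      rw [hS_true hb, hS_false hb']
      exact h4

theorem TE_inj {f g : Ω × ZMod w.L} (hf : TE C s f) (hg : TE C s g) (he : ed w f = ed w g) :
    f = g := by
  have h0 : hS s f = hS s g := le_antisymm (hg.2 f hf.1 he) (hf.2 g hg.1 he.symm)
  rcases ed_eq he with ⟨h1, h2⟩ | ⟨h1, h2, h3⟩
  · refine Prod.ext h1 ?_
    cases hb : (lz w f.2).2
    · rw [hS_false hb, hS_false (by rw [← h2]; exact hb)] at h0
      exact add_right_cancel (s.inj h0)
    · rw [hS_true hb, hS_true (by rw [← h2]; exact hb)] at h0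
      exact s.inj h0
  · exfalso
    cases hb : (lz w f.2).2
    · have hb' : (lz w g.2).2 = true := by rw [h2]; simp [inv, hb]
      rw [hS_false hb, hS_true hb'] at h0
      have h4 := s.inj h0
      exact lz_red w f.2 (by rw [h4, h2])
    · have hb' : (lz w g.2).2 = false := by rw [h2]; simp [inv, hb]
      rw [hS_true hb, hS_false hb'] at h0
      have h4 := s.inj h0
      exact lz_red w g.2 (by rw [← h4, h2, Pool.H679R3.OR.inv_inv])

/-- a flag at the lowest position which is a top vertex flag is alone over its edge -/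
theorem alone (hC : ∀ f ∈ C, nx w f ∈ C) {f : Ω × ZMod w.L} (hf : TV C s f)
    (hmin : ∀ i, s.r f.2 ≤ s.r i) : ∀ g ∈ C, ed w g = ed w f → g = f := by
  have h0 : ∀ g ∈ C, g.1 = f.1 → g = f := by
    intro g hg he
    exact Prod.ext he (s.inj (le_antisymm (hf.2 g hg he) (hmin _)))
  intro g hg he
  rcases ed_eq he with ⟨h1, h2⟩ | ⟨h1, h2, h3⟩
  · exact h0 g hg h1
  · exfalso
    have h4 := h0 (nx w g) (hC g hg) h1.symm
    have h5 : g.2 + 1 = f.2 := congrArg Prod.snd h4
    exact lz_red w g.2 (by rw [h5, h2])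

/-- The counting inequality. -/
theorem stack_ineq (C : Finset (Ω × ZMod w.L)) (s : Stk w) (hmax : ∀ i, s.r i ≤ s.r 0)
    [DecidableEq Ω] [DecidableEq X]
    (hC : ∀ f ∈ C, nx w f ∈ C) (E0 : Finset (Ω × X))
    (hcov : ∀ f ∈ C, ed w f ∉ E0 → ∃ g ∈ C, g ≠ f ∧ ed w g = ed w f) :
    (C.filter (fun f => f.2 = 0)).card + (C.image Prod.fst).card ≤
      (C.image (ed w)).card + E0.card := by
  classical
  -- the lowest position
  obtain ⟨m, -, hm⟩ := Finset.exists_min_image Finset.univ s.r ⟨0, Finset.mem_univ _⟩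
  have hm : ∀ i, s.r m ≤ s.r i := fun i => hm i (Finset.mem_univ _)
  obtain ⟨d, hd1, hd2, hdm⟩ : ∃ d, 0 < d ∧ d ≤ w.L ∧ (d : ZMod w.L) = m := by
    rcases Nat.eq_zero_or_pos m.val with h | h
    · refine ⟨w.L, w.pos, le_rfl, ?_⟩
      rw [ZMod.natCast_self, ← ZMod.natCast_zmod_val m, h, Nat.cast_zero]
    · exact ⟨m.val, h, (ZMod.val_lt m).le, ZMod.natCast_zmod_val m⟩
  have hCi : ∀ t, ∀ f ∈ C, (nx w)^[t] f ∈ C := by
    intro t
    induction t with
    | zero => intro f hf; exact hf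
    | succ t ih =>
      intro f hf
      rw [Function.iterate_succ_apply']
      exact hC _ (ih f hf)
  -- surjectivity of `nx` on `C`
  have hsurj : ∀ f ∈ C, ∃ g ∈ C, nx w g = f := by
    have h1 : C.image (nx w) ⊆ C := by
      intro f hf
      obtain ⟨g, hg, rfl⟩ := Finset.mem_image.1 hf
      exact hC g hg
    have h2 : C.image (nx w) = C :=
      Finset.eq_of_subset_of_card_le h1 (by rw [Finset.card_image_of_injective _ (nx_inj w)])
    intro f hf
    rw [← h2] at hf
    exact Finset.mem_image.1 hf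
  let VV := C.filter (TV C s)
  let EE := C.filter (TE C s)
  let QQ := C.filter (fun f => TE C s f ∧ ¬ TV C s (nx w f))
  -- vertices
  have hV : (C.image Prod.fst).card ≤ VV.card := by
    refine le_trans (Finset.card_le_card ?_) (Finset.card_image_le (s := VV) (f := Prod.fst))
    intro u hu
    obtain ⟨f, hf, rfl⟩ := Finset.mem_image.1 hu
    obtain ⟨g, hg, hg'⟩ := Finset.exists_max_image (C.filter (fun g => g.1 = f.1))
      (fun g => s.r g.2) ⟨f, Finset.mem_filter.2 ⟨hf, rfl⟩⟩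
    obtain ⟨hg1, hg2⟩ := Finset.mem_filter.1 hg
    refine Finset.mem_image.2 ⟨g, Finset.mem_filter.2 ⟨hg1, hg1, ?_⟩, hg2⟩
    intro g' hg'1 he
    exact hg' g' (Finset.mem_filter.2 ⟨hg'1, he.trans hg2⟩)
  -- edges
  have hE : EE.card ≤ (C.image (ed w)).card := by
    have h1 : (EE.image (ed w)).card = EE.card := by
      apply Finset.card_image_of_injOn
      intro f hf g hg he
      exact TE_inj (Finset.mem_filter.1 hf).2 (Finset.mem_filter.1 hg).2 he
    rw [← h1]
    exact Finset.card_le_card (Finset.image_subset_image (Finset.filter_subset _ _))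
  -- `VV` and `QQ` inside `EE`
  have hVQ : VV.card + QQ.card ≤ EE.card := by
    have h1 : (C.filter (fun f => TV C s (nx w f))).card = VV.card := by
      apply Finset.card_bij (fun f _ => nx w f)
      · intro f hf
        obtain ⟨hf1, hf2⟩ := Finset.mem_filter.1 hf
        exact Finset.mem_filter.2 ⟨hC f hf1, hf2⟩
      · intro f _ g _ h
        exact nx_inj w h
      · intro f hf
        obtain ⟨hf1, hf2⟩ := Finset.mem_filter.1 hf
        obtain ⟨g, hg, rfl⟩ := hsurj f hf1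
        exact ⟨g, Finset.mem_filter.2 ⟨hg, hf2⟩, rfl⟩
    rw [← h1, ← Finset.card_union_of_disjoint]
    · apply Finset.card_le_card
      intro f hf
      rcases Finset.mem_union.1 hf with hf | hf
      · obtain ⟨hf1, hf2⟩ := Finset.mem_filter.1 hf
        exact Finset.mem_filter.2 ⟨hf1, TV_TE' hC hf1 hf2⟩
      · obtain ⟨hf1, hf2⟩ := Finset.mem_filter.1 hf
        exact Finset.mem_filter.2 ⟨hf1, hf2.1⟩
    · rw [Finset.disjoint_left]
      intro f hf hf'
      exact (Finset.mem_filter.1 hf').2.2 (Finset.mem_filter.1 hf).2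
  -- the injection from the base flags
  let A0 := C.filter (fun f => f.2 = 0)
  have hTV0 : ∀ f ∈ A0, TV C s f := by
    intro f hf
    obtain ⟨hf1, hf2⟩ := Finset.mem_filter.1 hf
    refine ⟨hf1, fun g _ _ => ?_⟩
    rw [hf2]; exact hmax _
  have hit : ∀ f ∈ A0, ∀ t : ℕ, ((nx w)^[t] f).2 = (t : ZMod w.L) := by
    intro f hf t
    rw [nx_iter_snd, (Finset.mem_filter.1 hf).2, zero_add]
  have hchoice : ∀ f ∈ A0, (∃ t < d, (nx w)^[t] f ∈ QQ) ∨ TV C s ((nx w)^[d] f) := by
    intro f hf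
    have hfC : f ∈ C := (Finset.mem_filter.1 hf).1
    by_contra hcon
    rw [not_or, not_exists] at hcon
    obtain ⟨hc1, hc2⟩ := hcon
    have : ∀ t, t ≤ d → TV C s ((nx w)^[t] f) := by
      intro t
      induction t with
      | zero => intro _; exact hTV0 f hf
      | succ t ih =>
        intro ht
        by_contra hnt
        refine hc1 t ⟨by omega, Finset.mem_filter.2 ⟨hCi t f hfC, TV_TE hC (ih (by omega)), ?_⟩⟩
        rw [← Function.iterate_succ_apply' (nx w)]
        exact hnt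
    exact hc2 (this d le_rfl)
  let B1 := A0.filter (fun f => ∃ t < d, (nx w)^[t] f ∈ QQ)
  let B2 := A0.filter (fun f => TV C s ((nx w)^[d] f))
  have hA0 : A0.card ≤ B1.card + B2.card := by
    refine le_trans (Finset.card_le_card ?_) (Finset.card_union_le B1 B2)
    intro f hf
    rcases hchoice f hf with h | h
    · exact Finset.mem_union_left _ (Finset.mem_filter.2 ⟨hf, h⟩)
    · exact Finset.mem_union_right _ (Finset.mem_filter.2 ⟨hf, h⟩)
  have hB1 : B1.card ≤ QQ.card := by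
    have hex : ∀ f : Ω × ZMod w.L, ∃ t : ℕ, f ∈ B1 → (t < d ∧ (nx w)^[t] f ∈ QQ) := by
      intro f
      by_cases hf : f ∈ B1
      · obtain ⟨t, ht⟩ := (Finset.mem_filter.1 hf).2
        exact ⟨t, fun _ => ht⟩
      · exact ⟨0, fun h => absurd h hf⟩
    choose τ hτ using hex
    apply Finset.card_le_card_of_injOn (fun f => (nx w)^[τ f] f)
    · intro f hf
      exact (hτ f hf).2
    · intro f hf g hg he
      have he' : (nx w)^[τ f] f = (nx w)^[τ g] g := he
      have hfA : f ∈ A0 := (Finset.mem_filter.1 hf).1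
      have hgA : g ∈ A0 := (Finset.mem_filter.1 hg).1
      have h1 : ((τ f : ℕ) : ZMod w.L) = ((τ g : ℕ) : ZMod w.L) := by
        rw [← hit f hfA, ← hit g hgA, he']
      have h2 : τ f = τ g := by
        have h3 := congrArg ZMod.val h1
        rw [ZMod.val_natCast, ZMod.val_natCast,
          Nat.mod_eq_of_lt (lt_of_lt_of_le (hτ f hf).1 hd2),
          Nat.mod_eq_of_lt (lt_of_lt_of_le (hτ g hg).1 hd2)] at h3
        exact h3
      rw [h2] at he'
      exact (nx_inj w).iterate _ he'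
  have hB2 : B2.card ≤ E0.card := by
    apply Finset.card_le_card_of_injOn (fun f => ed w ((nx w)^[d] f))
    · intro f hf
      obtain ⟨hf1, hf2⟩ := Finset.mem_filter.1 hf
      by_contra hne
      have hmin : ∀ i, s.r ((nx w)^[d] f).2 ≤ s.r i := by
        intro i
        rw [hit f hf1, hdm]
        exact hm i
      obtain ⟨g, hg, hg1, hg2⟩ := hcov _ hf2.1 hne
      exact hg1 (alone hC hf2 hmin g hg hg2)
    · intro f hf g hg he
      obtain ⟨hf1, hf2⟩ := Finset.mem_filter.1 hf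
      obtain ⟨hg1, hg2⟩ := Finset.mem_filter.1 hg
      have hmin : ∀ i, s.r ((nx w)^[d] g).2 ≤ s.r i := by
        intro i
        rw [hit g hg1, hdm]
        exact hm i
      have := alone hC hg2 hmin _ hf2.1 he
      exact (nx_inj w).iterate _ this
  have := hA0
  show A0.card + _ ≤ _
  omega

end flags

end Pool.Agent.H355.Units
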